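import Pool.Agent.LibNexp.Generic

/-!
Oracles which code the complements of all languages in nondeterministic exponential time,
under a tag counting certain witnesses; the number of tags varies slowly with the length.
-/

namespace Pool.Agent.LibSpec4

open Function Pool.Agent.LibNexp

/-- The `m` lowest binary digits of `i`. -/
def dg : ℕ → ℕ → List Bool
  | 0, _ => []
  | m + 1, i => (decide (i % 2 = 1)) :: dg m (i / 2)

theorem length_dg : ∀ m i, (dg m i).length = m := by
  intro m
  induction m with
  | zero => intro i; rfl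
  | succ m ih => intro i; simp [dg, ih]

theorem dg_injective : ∀ {m i i' : ℕ}, i < 2 ^ m → i' < 2 ^ m → dg m i = dg m i' → i = i' := by
  intro m
  induction m with
  | zero => intro i i' h h' _; simp at h h'; omega
  | succ m ih =>
    intro i i' h h' he
    simp only [dg, List.cons.injEq, decide_eq_decide] at he
    rw [pow_succ] at h h'
    have := ih (by omega) (by omega) he.2
    omega

/-- The binary representation of `r`. -/
def bt (r : ℕ) : List Bool := dg (Nat.size r) r

theorem bt_injective {r r' : ℕ} (h : bt r = bt r') : r = r' := by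
  unfold bt at h
  have h1 : Nat.size r = Nat.size r' := by
    have := congrArg List.length h
    rwa [length_dg, length_dg] at this
  rw [← h1] at h
  exact dg_injective (Nat.lt_size_self r) (by rw [h1]; exact Nat.lt_size_self r') h

theorem length_bt {r s : ℕ} (h : r < 2 ^ s) : (bt r).length ≤ s := by
  unfold bt
  rw [length_dg]
  exact Nat.size_le.2 h

theorem unary_injective : ∀ {N N' : ℕ} {l l' : List Bool},
    List.replicate N true ++ false :: l = List.replicate N' true ++ false :: l' →
      N = N' ∧ l = l' := by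
  intro N
  induction N with
  | zero =>
    intro N' l l' h
    cases N' with
    | zero => simpa using h
    | succ N' => simp [List.replicate_succ] at h
  | succ N ih =>
    intro N' l l' h
    cases N' with
    | zero => simp [List.replicate_succ] at h
    | succ N' =>
      simp only [List.replicate_succ, List.cons_append, List.cons.injEq, true_and] at h
      obtain ⟨h1, h2⟩ := ih h
      exact ⟨by rw [h1], h2⟩

/-- The string asked about `z` with witness `w`. -/
def ask (N : ℕ) (z w : List Bool) : List Bool :=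
  false :: (List.replicate N true ++ false :: pair z w)

/-- The code string with program number `N`, input `x`, tag `r` and witness `w`. -/
def cd (N : ℕ) (x : List Bool) (r : ℕ) (w : List Bool) : List Bool := ask N (pair x (bt r)) w

theorem ask_injective {N N' : ℕ} {z z' w w' : List Bool} (h : ask N z w = ask N' z' w') :
    N = N' ∧ z = z' ∧ w = w' := by
  unfold ask at h
  simp only [List.cons.injEq, true_and] at h
  obtain ⟨h1, h2⟩ := unary_injective h
  obtain ⟨h3, h4⟩ := pair_injective h2
  exact ⟨h1, h3, h4⟩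

theorem cd_injective {N N' : ℕ} {x x' : List Bool} {r r' : ℕ} {w w' : List Bool}
    (h : cd N x r w = cd N' x' r' w') : N = N' ∧ x = x' ∧ r = r' ∧ w = w' := by
  obtain ⟨h1, h2, h3⟩ := ask_injective h
  obtain ⟨h4, h5⟩ := pair_injective h2
  exact ⟨h1, h4, bt_injective h5, h3⟩

theorem length_ask (N : ℕ) (z w : List Bool) :
    (ask N z w).length = N + 2 * z.length + w.length + 4 := by
  unfold ask
  rw [List.length_cons, List.length_append, List.length_cons, length_pair, List.length_replicate]
  ring

theorem length_cd (N : ℕ) (x : List Bool) (r : ℕ) (w : List Bool) :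
    (cd N x r w).length = N + 4 * x.length + 2 * (bt r).length + w.length + 8 := by
  unfold cd
  rw [length_ask, length_pair]
  ring

theorem length_lt_cd (N : ℕ) (x : List Bool) (r : ℕ) (w : List Bool) :
    w.length < (cd N x r w).length := by
  rw [length_cd]
  omega

/-- A bound for the length of the strings asked by program number `N` on inputs of
length `m`. -/
def qlen (en : ℕ → Prog × ℕ) (N m : ℕ) : ℕ := m + 2 ^ (m ^ (en N).2 + (en N).2)

/-- A bound for exponents. -/
def EE (en : ℕ → Prog × ℕ) (N m : ℕ) : ℕ := m + m ^ (en N).2 + (en N).2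

/-- The length of the witnesses in the codes for program number `N` on inputs of length `m`. -/
def wl (en : ℕ → Prog × ℕ) (N m : ℕ) : ℕ :=
  3 * EE en N m + 3 + 2 ^ ((3 * EE en N m + 2) ^ (N + 1) + (N + 1))

theorem qlen_le_wl (en : ℕ → Prog × ℕ) (N m : ℕ) : qlen en N m ≤ wl en N m := by
  unfold qlen wl
  have h1 : m ≤ EE en N m := by unfold EE; omega
  have h2 : m ^ (en N).2 + (en N).2 ≤ EE en N m := by unfold EE; omega
  have h3 : 3 * EE en N m + 2 ≤ (3 * EE en N m + 2) ^ (N + 1) := Nat.le_self_pow (by omega) _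
  have h4 : 2 ^ (m ^ (en N).2 + (en N).2) ≤ 2 ^ ((3 * EE en N m + 2) ^ (N + 1) + (N + 1)) :=
    Nat.pow_le_pow_right (by norm_num) (by omega)
  omega

theorem le_EE {en : ℕ → Prog × ℕ} {N m n : ℕ} (h : n + 2 ^ n ≤ qlen en N m) : n ≤ EE en N m := by
  by_contra hcon
  push Not at hcon
  unfold qlen at h
  unfold EE at hcon
  have h1 : 2 ^ (m ^ (en N).2 + (en N).2) ≤ 2 ^ n := Nat.pow_le_pow_right (by norm_num) (by omega)
  omega

theorem wl_big {en : ℕ → Prog × ℕ} {N m n c : ℕ} (hN : c ≤ N) (h : n + 2 ^ n ≤ qlen en N m) :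
    3 * n + 2 + 2 ^ ((3 * n + 2) ^ c + c) < wl en N m := by
  have h1 := le_EE h
  unfold wl
  have h2 : (3 * n + 2) ^ c ≤ (3 * EE en N m + 2) ^ (N + 1) :=
    le_trans (Nat.pow_le_pow_left (by omega) c) (Nat.pow_le_pow_right (by omega) (by omega))
  have h3 : 2 ^ ((3 * n + 2) ^ c + c) ≤ 2 ^ ((3 * EE en N m + 2) ^ (N + 1) + (N + 1)) :=
    Nat.pow_le_pow_right (by norm_num) (by omega)
  omega

/-- Program number `N` accepts `x` in its time. -/
def AccN (en : ℕ → Prog × ℕ) (O : List Bool → Bool) (N : ℕ) (x : List Bool) : Prop :=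
  Acc O (en N).1 (2 ^ (x.length ^ (en N).2 + (en N).2)) x

/-- The inputs which may get a witness. -/
def xs (n i : ℕ) : List Bool := true :: dg (n - 1) i

theorem length_xs {n i : ℕ} (h : 1 ≤ n) : (xs n i).length = n := by
  unfold xs
  rw [List.length_cons, length_dg]
  omega

theorem xs_injective {n i i' : ℕ} (h : i < 2 ^ (n - 1)) (h' : i' < 2 ^ (n - 1))
    (he : xs n i = xs n i') : i = i' := by
  unfold xs at he
  simp only [List.cons.injEq, true_and] at he
  exact dg_injective h h' he

/-- The number of inputs among the first `V - 1` candidates that have a witness. -/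
noncomputable def census (V : ℕ) (O : List Bool → Bool) (n : ℕ) : ℕ := by
  classical
  exact ((Finset.range (V - 1)).filter fun i => xs n i ∈ WitLang O).card

/-- The length of the witness strings of stage `k`. -/
def lev (ν : ℕ → ℕ) (k : ℕ) : ℕ := ν k + 2 ^ ν k

/-- The tag used for the computations of program number `N` asking strings of length at most
`M`; at stage `k` only the programs with numbers below `ω k` have a tag. -/
noncomputable def tag (V ν ω : ℕ → ℕ) (O : List Bool → Bool) (N M : ℕ) : ℕ := by
  classical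
  exact ∑ k ∈ Finset.range (M + 1), if lev ν k ≤ M ∧ M < lev ν (k + 1) ∧ N < ω k then
    census (V k) O (ν k) else 0

variable {en : ℕ → Prog × ℕ} {V ν ω : ℕ → ℕ} {O O' : List Bool → Bool}

theorem witLang_agree {x : List Bool} (h : ∀ s, s.length ≤ x.length + 2 ^ x.length → O s = O' s) :
    x ∈ WitLang O ↔ x ∈ WitLang O' := by
  constructor
  · rintro ⟨w, hw, h1⟩
    exact ⟨w, hw, by rw [← h _ (by rw [List.length_append, hw])]; exact h1⟩
  · rintro ⟨w, hw, h1⟩
    exact ⟨w, hw, by rw [h _ (by rw [List.length_append, hw])]; exact h1⟩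

theorem census_agree {V n : ℕ} (hn : 1 ≤ n) (h : ∀ s, s.length ≤ n + 2 ^ n → O s = O' s) :
    census V O n = census V O' n := by
  classical
  unfold census
  congr 1
  ext i
  simp only [Finset.mem_filter, Finset.mem_range]
  constructor
  · rintro ⟨h1, h2⟩
    exact ⟨h1, (witLang_agree (by rw [length_xs hn]; exact h)).1 h2⟩
  · rintro ⟨h1, h2⟩
    exact ⟨h1, (witLang_agree (by rw [length_xs hn]; exact h)).2 h2⟩

theorem tag_agree (hν : ∀ k, 1 ≤ ν k) {N M : ℕ} (h : ∀ s, s.length ≤ M → O s = O' s) :
    tag V ν ω O N M = tag V ν ω O' N M := by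
  classical
  unfold tag
  refine Finset.sum_congr rfl fun k _ => ?_
  split_ifs with h1
  · exact census_agree (hν k) fun s hs => h s (le_trans hs h1.1)
  · rfl

theorem accN_agree {N : ℕ} {x : List Bool} (h : ∀ s, s.length ≤ qlen en N x.length → O s = O' s) :
    AccN en O N x ↔ AccN en O' N x :=
  ⟨fun h1 => acc_agree h h1, fun h1 => acc_agree (fun s hs => (h s hs).symm) h1⟩

theorem le_lev (hmono : ∀ k, lev ν k < lev ν (k + 1)) (k : ℕ) : k ≤ lev ν k := by
  induction k with
  | zero => exact Nat.zero_le _
  | succ k ih => have := hmono k; omega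

theorem lev_mono (hmono : ∀ k, lev ν k < lev ν (k + 1)) {k k' : ℕ} (h : k ≤ k') :
    lev ν k ≤ lev ν k' := (strictMono_nat_of_lt_succ hmono).monotone h

theorem tag_eq (hmono : ∀ k, lev ν k < lev ν (k + 1)) {k N M : ℕ} (h1 : lev ν k ≤ M)
    (h2 : M < lev ν (k + 1)) (hN : N < ω k) : tag V ν ω O N M = census (V k) O (ν k) := by
  classical
  unfold tag
  rw [Finset.sum_eq_single k]
  · rw [if_pos ⟨h1, h2, hN⟩]
  · intro k' _ hne
    rw [if_neg]
    rintro ⟨h3, h4, -⟩
    rcases Nat.lt_or_ge k k' with h | h
    · have := lev_mono hmono (show k + 1 ≤ k' by omega)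
      omega
    · have := lev_mono hmono (show k' + 1 ≤ k by omega)
      omega
  · intro h3
    rw [Finset.mem_range] at h3
    have := le_lev hmono k
    omega

/-- Code strings of the right length. -/
def IsCode (en : ℕ → Prog × ℕ) (s : List Bool) : Prop :=
  ∃ N x r w, s = cd N x r w ∧ w.length = wl en N x.length

/-- The intended value on code strings. -/
def Val (en : ℕ → Prog × ℕ) (V ν ω : ℕ → ℕ) (O : List Bool → Bool) (s : List Bool) : Prop :=
  ∃ N x r w, s = cd N x r w ∧ w.length = wl en N x.length ∧
    r = tag V ν ω O N (qlen en N x.length) ∧ ¬ AccN en O N x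

theorem val_cd {N : ℕ} {x : List Bool} {r : ℕ} {w : List Bool} (h : Val en V ν ω O (cd N x r w)) :
    r = tag V ν ω O N (qlen en N x.length) ∧ ¬ AccN en O N x := by
  obtain ⟨N', x', r', w', h1, -, h2, h3⟩ := h
  obtain ⟨rfl, rfl, rfl, rfl⟩ := cd_injective h1
  exact ⟨h2, h3⟩

theorem val_agree (hν : ∀ k, 1 ≤ ν k) {s : List Bool}
    (h : ∀ u : List Bool, u.length < s.length → O u = O' u) :
    Val en V ν ω O s → Val en V ν ω O' s := by
  rintro ⟨N, x, r, w, rfl, h1, h2, h3⟩
  have hag : ∀ u : List Bool, u.length ≤ qlen en N x.length → O u = O' u := by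
    intro u hu
    refine h u ?_
    have := length_lt_cd N x r w
    have := qlen_le_wl en N x.length
    omega
  refine ⟨N, x, r, w, rfl, h1, ?_, ?_⟩
  · rw [h2, tag_agree hν hag]
  · rwa [accN_agree hag] at h3

theorem exists_fix (Φ : (List Bool → Bool) → (List Bool → Bool))
    (h : ∀ O O' s, (∀ u : List Bool, u.length < s.length → O u = O' u) → Φ O s = Φ O' s) :
    ∃ O, Φ O = O := by
  set It : ℕ → (List Bool → Bool) := fun m => Φ^[m] (fun _ => false) with hIt
  have hs : ∀ m, It (m + 1) = Φ (It m) := fun m => by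
    simp only [hIt, Function.iterate_succ_apply']
  have h1 : ∀ m, ∀ s : List Bool, s.length < m → It (m + 1) s = It m s := by
    intro m
    induction m with
    | zero => intro s hs; omega
    | succ m ih =>
      intro s hsm
      rw [hs, hs m]
      refine h _ _ s fun u hu => ?_
      have := ih u (by omega)
      rwa [hs] at this
  have h2 : ∀ d, ∀ s : List Bool, It (s.length + 1 + d) s = It (s.length + 1) s := by
    intro d
    induction d with
    | zero => intro s; rfl
    | succ d ih => intro s; rw [← add_assoc, h1 _ _ (by omega), ih]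
  refine ⟨fun s => It (s.length + 1) s, ?_⟩
  funext s
  show Φ _ s = It (s.length + 1) s
  rw [hs]
  refine h _ _ s fun u hu => ?_
  have := h2 (s.length - (u.length + 1)) u
  rw [show u.length + 1 + (s.length - (u.length + 1)) = s.length by omega] at this
  exact this.symm

/-- Completion of an oracle by coding. -/
theorem comp (hν : ∀ k, 1 ≤ ν k) (P : List Bool → Bool) (F : Finset (List Bool)) (ℓ : ℕ) :
    ∃ O : List Bool → Bool, (∀ s, (s.length < ℓ ∨ s ∈ F ∨ ¬ IsCode en s) → O s = P s) ∧
      (∀ s, ℓ ≤ s.length → s ∉ F → IsCode en s → (O s = true ↔ Val en V ν ω O s)) := by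
  classical
  obtain ⟨O, hO⟩ := exists_fix (fun O s => if s.length < ℓ ∨ s ∈ F ∨ ¬ IsCode en s then P s
    else decide (Val en V ν ω O s)) (by
      intro O O' s h
      by_cases h1 : s.length < ℓ ∨ s ∈ F ∨ ¬ IsCode en s
      · simp only [if_pos h1]
      · simp only [if_neg h1]
        exact decide_eq_decide.2 ⟨val_agree hν h, val_agree hν fun u hu => (h u hu).symm⟩)
  refine ⟨O, fun s hs => ?_, fun s h1 h2 h3 => ?_⟩
  · have := congrFun hO s
    simp only [if_pos hs] at this
    exact this.symm
  · have h4 : ¬ (s.length < ℓ ∨ s ∈ F ∨ ¬ IsCode en s) := by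
      rintro (h | h | h)
      · omega
      · exact h2 h
      · exact h h3
    have := congrFun hO s
    simp only [if_neg h4] at this
    rw [← this, decide_eq_true_iff]

/-- Oracles coding all complements correctly. -/
structure Good (en : ℕ → Prog × ℕ) (V ν ω : ℕ → ℕ) (O : List Bool → Bool) : Prop where
  sound : ∀ N x r w, w.length = wl en N x.length → O (cd N x r w) = true →
    r = tag V ν ω O N (qlen en N x.length) → ¬ AccN en O N x
  complete : ∀ N x, ¬ AccN en O N x → ∃ w : List Bool, w.length = wl en N x.length ∧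
    O (cd N x (tag V ν ω O N (qlen en N x.length)) w) = true
  codes : ∀ s, O (false :: s) = true → IsCode en (false :: s)

theorem exists_notMem {N : ℕ} {x : List Bool} {r m : ℕ} {F : Finset (List Bool)}
    (hF : F.card < 2 ^ m) : ∃ w : List Bool, w.length = m ∧ cd N x r w ∉ F := by
  classical
  by_contra hcon
  push Not at hcon
  have hc := Finset.card_le_card_of_injOn (s := strs m) (t := F) (fun w => cd N x r w)
    (fun w hw => hcon w (mem_strs.1 hw))
    (fun w _ w' _ h => (cd_injective h).2.2.2)
  rw [card_strs] at hc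
  omega

theorem good_comp (hν : ∀ k, 1 ≤ ν k) {O₁ P : List Bool → Bool} {F : Finset (List Bool)} {ℓ : ℕ}
    (hg : Good en V ν ω O₁)
    (h1 : ∀ s, (s.length < ℓ ∨ s ∈ F ∨ ¬ IsCode en s) → O s = P s)
    (h2 : ∀ s, ℓ ≤ s.length → s ∉ F → IsCode en s → (O s = true ↔ Val en V ν ω O s))
    (hP1 : ∀ s, s.length < ℓ → P s = O₁ s) (hP2 : ∀ s ∈ F, P s = O₁ s)
    (hP3 : ∀ s, P (false :: s) = true → IsCode en (false :: s))
    (hF : ∀ N x r w, cd N x r w ∈ F → w.length = wl en N x.length → ℓ ≤ qlen en N x.length →
      r = tag V ν ω O N (qlen en N x.length) → P (cd N x r w) = false)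
    (hcard : F.card < 2 ^ ℓ) : Good en V ν ω O := by
  have hlow : ∀ s, s.length < ℓ → O s = O₁ s := fun s hs => by rw [h1 s (Or.inl hs), hP1 s hs]
  have hlow' : ∀ {M : ℕ}, M < ℓ → ∀ s : List Bool, s.length ≤ M → O s = O₁ s :=
    fun hM s hs => hlow s (by omega)
  refine ⟨?_, ?_, ?_⟩
  · intro N x r w hw hO hr
    have hqw := qlen_le_wl en N x.length
    set M := qlen en N x.length with hM
    by_cases hMl : M < ℓ
    · by_cases h3 : (cd N x r w).length < ℓ ∨ cd N x r w ∈ F
      · have h4 : O₁ (cd N x r w) = true := by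
          rcases h3 with h3 | h3
          · rw [← hlow _ h3]; exact hO
          · rw [← hP2 _ h3, ← h1 _ (Or.inr (Or.inl h3))]; exact hO
        rw [tag_agree hν (hlow' hMl)] at hr
        rw [accN_agree (hlow' hMl)]
        exact hg.sound N x r w hw h4 hr
      · push Not at h3
        exact (val_cd ((h2 _ h3.1 h3.2 ⟨N, x, r, w, rfl, hw⟩).1 hO)).2
    · push Not at hMl
      have h3 : ℓ ≤ (cd N x r w).length := by
        have := length_lt_cd N x r w
        omega
      by_cases h4 : cd N x r w ∈ F
      · rw [h1 _ (Or.inr (Or.inl h4)), hF N x r w h4 hw hMl hr] at hO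
        exact absurd hO (by simp)
      · exact (val_cd ((h2 _ h3 h4 ⟨N, x, r, w, rfl, hw⟩).1 hO)).2
  · intro N x hN
    have hqw := qlen_le_wl en N x.length
    set M := qlen en N x.length with hM
    by_cases hMl : M < ℓ
    · rw [accN_agree (hlow' hMl)] at hN
      obtain ⟨w, hw, hO⟩ := hg.complete N x hN
      refine ⟨w, hw, ?_⟩
      rw [tag_agree hν (hlow' hMl)]
      by_cases h3 : (cd N x (tag V ν ω O₁ N M) w).length < ℓ
      · rw [hlow _ h3]; exact hO
      · by_cases h4 : cd N x (tag V ν ω O₁ N M) w ∈ F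
        · rw [h1 _ (Or.inr (Or.inl h4)), hP2 _ h4]; exact hO
        · rw [h2 _ (by omega) h4 ⟨N, x, _, w, rfl, hw⟩]
          exact ⟨N, x, _, w, rfl, hw, (tag_agree hν (hlow' hMl)).symm,
            by rw [accN_agree (hlow' hMl)]; exact hN⟩
    · push Not at hMl
      obtain ⟨w, hw, h4⟩ := exists_notMem (N := N) (x := x) (r := tag V ν ω O N M)
        (m := wl en N x.length)
        (F := F) (lt_of_lt_of_le hcard (Nat.pow_le_pow_right (by norm_num) (le_trans hMl hqw)))
      refine ⟨w, hw, ?_⟩
      have h3 : ℓ ≤ (cd N x (tag V ν ω O N M) w).length := by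
        have := length_lt_cd N x (tag V ν ω O N M) w
        omega
      rw [h2 _ h3 h4 ⟨N, x, _, w, rfl, hw⟩]
      exact ⟨N, x, _, w, rfl, hw, rfl, hN⟩
  · intro s hs
    by_contra hcode
    rw [h1 _ (Or.inr (Or.inr hcode))] at hs
    exact hcode (hP3 s hs)

end Pool.Agent.LibSpec4
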