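import Pool.Agent.LibSpec4.Top
import Pool.Agent.LibSpec30.Census

/-!
Complete classification of the exact advice rates which are constructible and of slope at most one.
-/

namespace Pool.Agent.LibSpec4

open Function Filter Pool.Agent.LibNexp Pool.Agent.LibBHN Pool.Agent.LibSelfLaw
  Pool.Agent.LibDual85

variable {O : List Bool → Bool}

/-! ### Programs without oracle -/

/-- Replace queries to the empty oracle. -/
def deq : Prog → Prog
  | .push r b => .push r b
  | .pop r b => .pop r b
  | .empty r => .empty r
  | .query r false => .alt (.query r false) (.query r true)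
  | .query r true => .seq (.query r false) (.query r true)
  | .seq p q => .seq (deq p) (deq q)
  | .alt p q => .alt (deq p) (deq q)
  | .star p => .star (deq p)

theorem run_deq (O : List Bool → Bool) : ∀ (p : Prog) (t : ℕ) (σ σ' : State),
    Run O (deq p) t σ σ' ↔ Run (fun _ => false) p t σ σ' := by
  intro p
  induction p with
  | push r b => intro t σ σ'; exact Iff.rfl
  | pop r b => intro t σ σ'; exact Iff.rfl
  | empty r => intro t σ σ'; exact Iff.rfl
  | query r b =>
    intro t σ σ'
    cases b with
    | false =>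
      constructor
      · rintro (⟨h1, -, h2⟩ | ⟨h1, -, h2⟩)
        · exact ⟨h1, rfl, h2⟩
        · exact ⟨h1, rfl, h2⟩
      · rintro ⟨h1, -, h2⟩
        cases h : O (σ r) with
        | false => exact Or.inl ⟨h1, h, h2⟩
        | true => exact Or.inr ⟨h1, h, h2⟩
    | true =>
      constructor
      · rintro ⟨t1, t2, τ, -, ⟨-, h1, rfl⟩, -, h2, -⟩
        rw [h1] at h2
        exact absurd h2 (by simp)
      · rintro ⟨-, h1, -⟩
        exact absurd h1 (by simp)
  | seq p q ihp ihq =>
    intro t σ σ'
    constructor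
    · rintro ⟨t1, t2, τ, h, h1, h2⟩
      exact ⟨t1, t2, τ, h, (ihp _ _ _).1 h1, (ihq _ _ _).1 h2⟩
    · rintro ⟨t1, t2, τ, h, h1, h2⟩
      exact ⟨t1, t2, τ, h, (ihp _ _ _).2 h1, (ihq _ _ _).2 h2⟩
  | alt p q ihp ihq =>
    intro t σ σ'
    exact or_congr (ihp _ _ _) (ihq _ _ _)
  | star p ih =>
    intro t σ σ'
    constructor
    · intro h
      induction h with
      | nil σ => exact Iter.nil σ
      | cons h1 _ ih2 => exact Iter.cons ((ih _ _ _).1 h1) ih2
    · intro h
      induction h with
      | nil σ => exact Iter.nil σ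
      | cons h1 _ ih2 => exact Iter.cons ((ih _ _ _).2 h1) ih2

theorem nexp_of_trivial {k : ℕ} {R : (Fin k → List Bool) → Prop}
    (h : NEXP (fun _ => false) R) (O : List Bool → Bool) : NEXP O R := by
  obtain ⟨c, p, hp⟩ := h
  refine ⟨c, deq p, fun e => ⟨fun t σ' h1 => (hp e).1 t σ' ((run_deq O _ _ _ _).1 h1),
    fun he => ?_⟩⟩
  obtain ⟨t, σ', ht, h1⟩ := (hp e).2 he
  exact ⟨t, σ', ht, (run_deq O _ _ _ _).2 h1⟩

/-! ### The classification -/

theorem census_exists : ∃ O : List Bool → Bool, LibSpec30.Tight O fun n => n :=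
  (dense_of_mem_residual LibSpec30.census_tight).nonempty

theorem census_exists' {s : ℕ → ℕ} (hn : ∀ n, s n ≤ n) {C : ℕ} (hC : ∀ n, n ≤ s n + C) :
    ∃ O : List Bool → Bool, LibSpec30.Tight O s := by
  obtain ⟨O, h1, h2⟩ := census_exists
  refine ⟨O, fun L hL => ?_, fun a ha h3 => h2 a ha ?_⟩
  · obtain ⟨c, B, hB, f, hf, hfB⟩ := h1 L hL
    refine ⟨C + c, B, hB, f, fun n => ?_, hfB⟩
    have h3 : (f n).length ≤ n + c := hf n
    have h4 := hC n
    show (f n).length ≤ s n + (C + c)
    omega
  · refine tendsto_atTop_mono (fun n => ?_) h3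
    have := hn n
    show s n - a n ≤ n - a n
    omega

/-- Complete classification for constructible functions of slope at most one. -/
theorem spectrum_nice {s : ℕ → ℕ} (hm : Monotone s) (hl : ∀ n, s (n + 1) ≤ s n + 1)
    (hn : ∀ n, s n ≤ n)
    (hG : NEXP (fun _ => false) fun e : Fin 2 → List Bool => (e 1).length = s (e 0).length) :
    (∃ O : List Bool → Bool, LibSpec30.Tight O s) ↔
      (∃ C, ∀ n, n ≤ s n + C) ∨
      ∀ e : ℕ, 1 ≤ e → ¬ Tendsto (fun n => s n - s (Nat.nthRoot e n)) atTop atTop := by
  constructor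
  · rintro ⟨O, hO⟩
    by_contra hcon
    push Not at hcon
    obtain ⟨h1, e, he, h2⟩ := hcon
    refine not_tight_nice (O := O) hm hl hn (nexp_of_trivial hG O) h1 he ?_ (tight_iff.1 hO)
    rw [← tendsto_nat_sub_iff]
    simpa only [rt_eq_nthRoot he] using h2
  · rintro (⟨C, hC⟩ | h)
    · exact census_exists' hn hC
    · by_cases h1 : ∃ C, ∀ n, n ≤ s n + C
      · obtain ⟨C, hC⟩ := h1
        exact census_exists' hn hC
      · push Not at h1
        have hgap : Monotone fun n => n - s n := by
          refine monotone_nat_of_le_succ fun n => ?_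
          have := hl n
          omega
        have h2 : ∀ᶠ n in atTop, s n + 1 ≤ n := by
          obtain ⟨n₀, hn₀⟩ := h1 0
          filter_upwards [eventually_ge_atTop n₀] with n h3
          have h4 : n₀ - s n₀ ≤ n - s n := hgap h3
          omega
        obtain ⟨O, h3, h4⟩ := tight_exists hm h2 (fun e he => by
          have h5 := h e (by omega)
          have h6 : ¬ Tendsto (fun n => (s n : ℤ) - s (rt e n)) atTop atTop := by
            intro h7
            refine h5 ?_
            rw [← tendsto_nat_sub_iff] at h7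
            simpa only [rt_eq_nthRoot (show 1 ≤ e by omega)] using h7
          rw [tendsto_sub_iff] at h6
          push Not at h6
          obtain ⟨c, hc⟩ := h6
          refine ⟨c, ?_⟩
          rw [frequently_atTop]
          intro n₀
          obtain ⟨n, hn, hn'⟩ := hc n₀
          exact ⟨n, hn, by omega⟩)
        refine ⟨O, tight_iff.2 ⟨h3, fun a ha h5 => ?_⟩⟩
        have hW : WitLang O ∈ NEXPLang O := ne_sub witLang_mem
        obtain ⟨c, hc⟩ := h5 _ hW
        exact h4 a (fun c => by
          obtain ⟨n₀, hn⟩ := tendsto_sub_iff.1 ha c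
          filter_upwards [eventually_ge_atTop n₀] with n hn' using hn n hn') c hc

end Pool.Agent.LibSpec4
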