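import Pool.Agent.LibSpec4.Limit

/-!
Oracles for which the number of advice bits needed for complementing nondeterministic
exponential time is a given slowly varying function, up to an additive constant.
-/

namespace Pool.Agent.LibSpec4

open Function Filter Pool.Agent.LibNexp

variable {O : List Bool → Bool}

/-! ### Slowly varying functions -/

theorem slow_pow {s : ℕ → ℕ} {C : ℕ} (h : ∀ n, s (n ^ 2) ≤ s n + C) (j n : ℕ) :
    s (n ^ (2 ^ j)) ≤ s n + j * C := by
  induction j with
  | zero => simp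
  | succ j ih =>
    have h1 := h (n ^ (2 ^ j))
    rw [← pow_mul, ← pow_succ] at h1
    rw [Nat.succ_mul]
    omega

theorem slow_log {s : ℕ → ℕ} {C : ℕ} (hm : Monotone s) (h : ∀ n, s (n ^ 2) ≤ s n + C) :
    ∀ n, 4 ≤ n → s n ≤ s 4 + C * Nat.log 2 n := by
  intro n
  induction n using Nat.strong_induction_on with
  | _ n ih =>
    intro hn
    have h1 : n < (Nat.sqrt n + 1) ^ 2 := by
      have := Nat.lt_succ_sqrt n
      rw [sq]
      exact this
    have h2 : s n ≤ s (Nat.sqrt n + 1) + C := le_trans (hm h1.le) (h _)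
    have hlog : 1 ≤ Nat.log 2 n := Nat.log_pos (by norm_num) (by omega)
    rcases Nat.lt_or_ge (Nat.sqrt n + 1) 4 with h3 | h3
    · have h4 : s (Nat.sqrt n + 1) ≤ s 4 := hm h3.le
      have h5 : C ≤ C * Nat.log 2 n := Nat.le_mul_of_pos_right C hlog
      omega
    · have h6 : 3 ≤ Nat.sqrt n := by omega
      have h7 : Nat.sqrt n * Nat.sqrt n ≤ n := Nat.sqrt_le n
      have h8 : 3 * Nat.sqrt n ≤ Nat.sqrt n * Nat.sqrt n := Nat.mul_le_mul_right _ h6
      have h9 : Nat.sqrt n + 1 ≤ n / 2 := by omega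
      have h10 := ih (Nat.sqrt n + 1) (by omega) h3
      have h11 : Nat.log 2 (Nat.sqrt n + 1) ≤ Nat.log 2 (n / 2) := Nat.log_mono_right h9
      rw [Nat.log_div_base] at h11
      have h12 : C * Nat.log 2 (Nat.sqrt n + 1) + C ≤ C * Nat.log 2 n := by
        have : C * (Nat.log 2 (Nat.sqrt n + 1) + 1) ≤ C * Nat.log 2 n :=
          Nat.mul_le_mul_left _ (by omega)
        rw [Nat.mul_add] at this
        omega
      omega

theorem slow_small {s : ℕ → ℕ} {C : ℕ} (hm : Monotone s) (h : ∀ n, s (n ^ 2) ≤ s n + C) :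
    ∀ᶠ n in atTop, s n + 1 ≤ n := by
  have key : ∀ A C : ℕ, ∀ᶠ n : ℕ in atTop, A + C * Nat.log 2 n ≤ n := by
    intro A C
    have h1 := (isLittleO_pow_const_const_pow_of_one_lt (R := ℝ) 1 (r := 2) (by norm_num)).def
      (c := 1 / (A + C + 1 : ℝ)) (by positivity)
    rw [eventually_atTop] at h1
    obtain ⟨m0, h1⟩ := h1
    filter_upwards [eventually_ge_atTop (2 ^ (m0 + 1))] with n hn
    have hpos : 0 < 2 ^ (m0 + 1) := by positivity
    have hn0 : n ≠ 0 := by omega
    have h2 : m0 + 1 ≤ Nat.log 2 n := (Nat.le_log_iff_pow_le (by norm_num) hn0).2 hn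
    have h3 := h1 (Nat.log 2 n) (by omega)
    rw [Real.norm_of_nonneg (by positivity), Real.norm_of_nonneg (by positivity), pow_one,
      one_div, inv_mul_eq_div, le_div_iff₀ (by positivity)] at h3
    have h4 : Nat.log 2 n * (A + C + 1) ≤ 2 ^ Nat.log 2 n := by exact_mod_cast h3
    have h5 : 2 ^ Nat.log 2 n ≤ n := Nat.pow_log_le_self 2 hn0
    have h6 : 1 * A ≤ Nat.log 2 n * A := Nat.mul_le_mul_right _ (by omega)
    have h7 : Nat.log 2 n * (A + C + 1) = Nat.log 2 n * A + C * Nat.log 2 n + Nat.log 2 n := by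
      ring
    omega
  filter_upwards [key (s 4 + 1) C, eventually_ge_atTop 4] with n h1 h2
  have := slow_log hm h n h2
  omega

theorem slow_poly {s : ℕ → ℕ} {C : ℕ} (hm : Monotone s) (h : ∀ n, s (n ^ 2) ≤ s n + C) (c : ℕ) :
    ∃ c', ∀ m, s (m + m ^ c + c) ≤ s m + c' := by
  refine ⟨s (c + 2) + (c + 2) * C, fun m => ?_⟩
  rcases Nat.lt_or_ge m 2 with h1 | h1
  · have h2 : m ^ c ≤ 1 := by
      have : m ≤ 1 := by omega
      calc m ^ c ≤ 1 ^ c := Nat.pow_le_pow_left this c
        _ = 1 := one_pow c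
    have h3 : s (m + m ^ c + c) ≤ s (c + 2) := hm (by omega)
    omega
  · have h2 : m + m ^ c + c ≤ m ^ (2 ^ (c + 2)) := by
      have h3 : m ≤ m ^ (c + 1) := Nat.le_self_pow (by omega) _
      have h4 : m ^ c ≤ m ^ (c + 1) := Nat.pow_le_pow_right (by omega) (by omega)
      have h5 : c ≤ m ^ (c + 1) := by
        have : c + 1 < 2 ^ (c + 1) := Nat.lt_two_pow_self
        have h6 : 2 ^ (c + 1) ≤ m ^ (c + 1) := Nat.pow_le_pow_left h1 _
        omega
      have h7 : m ^ (c + 3) = m ^ (c + 1) * m ^ 2 := by rw [← pow_add]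
      have h8 : 4 ≤ m ^ 2 := by nlinarith
      have h9 : m ^ (c + 1) * 4 ≤ m ^ (c + 1) * m ^ 2 := Nat.mul_le_mul_left _ h8
      have h10 : c + 3 ≤ 2 ^ (c + 2) := by
        have : c + 2 < 2 ^ (c + 2) := Nat.lt_two_pow_self
        omega
      have h11 : m ^ (c + 3) ≤ m ^ (2 ^ (c + 2)) := Nat.pow_le_pow_right (by omega) h10
      omega
    have h3 := slow_pow h (c + 2) m
    have h4 := hm h2
    omega

/-! ### The language of coded facts -/

/-- Pop a bit from `r` and push it twice on `d`. -/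
def dblBit (r d : ℕ) : Prog :=
  .alt (.seq (.pop r false) (.seq (.push d false) (.push d false)))
    (.seq (.pop r true) (.seq (.push d true) (.push d true)))

theorem run_dblBit {r d t : ℕ} {σ σ' : State} : Run O (dblBit r d) t σ σ' ↔
    ∃ b l, σ r = b :: l ∧ t = 3 ∧
      σ' = update (update σ r l) d (b :: b :: (update σ r l) d) := by
  constructor
  · rintro (⟨t1, t2, τ, rfl, ⟨rfl, l, h1, rfl⟩, t3, t4, τ', rfl, ⟨rfl, rfl⟩, rfl, rfl⟩ |
      ⟨t1, t2, τ, rfl, ⟨rfl, l, h1, rfl⟩, t3, t4, τ', rfl, ⟨rfl, rfl⟩, rfl, rfl⟩)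
    · refine ⟨false, l, h1, rfl, ?_⟩
      rw [update_self, update_idem]
    · refine ⟨true, l, h1, rfl, ?_⟩
      rw [update_self, update_idem]
  · rintro ⟨b, l, h1, rfl, rfl⟩
    cases b
    · refine Or.inl ⟨1, 2, _, rfl, ⟨rfl, l, h1, rfl⟩, 1, 1, _, rfl, ⟨rfl, rfl⟩, rfl, ?_⟩
      rw [update_self, update_idem]
    · refine Or.inr ⟨1, 2, _, rfl, ⟨rfl, l, h1, rfl⟩, 1, 1, _, rfl, ⟨rfl, rfl⟩, rfl, ?_⟩
      rw [update_self, update_idem]

theorem foldl_dbl {d : ℕ} : ∀ (l : List Bool) (σ : State),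
    l.foldl (fun τ b => update τ d (b :: b :: τ d)) σ =
      update σ d ((l.reverse.flatMap fun b => [b, b]) ++ σ d) := by
  intro l
  induction l with
  | nil => intro σ; simp
  | cons b l ih => intro σ; rw [List.foldl_cons, ih]; simp

/-- Move the content of `r` to `d` (reversing and doubling it). -/
def dbl (r d : ℕ) : Prog := .seq (.star (dblBit r d)) (.empty r)

theorem run_dbl {r d t : ℕ} (hrd : r ≠ d) {σ σ' : State} : Run O (dbl r d) t σ σ' ↔
    t = 3 * (σ r).length + 1 ∧
      σ' = update (update σ r []) d (((σ r).reverse.flatMap fun b => [b, b]) ++ σ d) := by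
  have h := iter_drain (r := r) (c := 3) (F := fun b σ => update σ d (b :: b :: σ d))
    (fun b σ => update_of_ne hrd _ _)
    (fun b σ x => by rw [update_of_ne (Ne.symm hrd), update_comm hrd])
    (R := Run O (dblBit r d)) (fun t σ σ' => run_dblBit)
  constructor
  · rintro ⟨t1, t2, τ, rfl, h1, rfl, h2, rfl⟩
    obtain ⟨l, l', h3, rfl, rfl⟩ := (h _ _ _).1 h1
    rw [foldl_dbl] at *
    rw [update_self] at h2
    subst h2
    rw [List.append_nil] at h3
    exact ⟨by rw [h3], by rw [h3, update_comm hrd]⟩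
  · rintro ⟨rfl, rfl⟩
    refine ⟨3 * (σ r).length, 1, _, rfl, ?_, rfl, ?_, rfl⟩
    · exact (h _ _ _).2 ⟨σ r, [], by simp, rfl, by rw [foldl_dbl, update_comm hrd]⟩
    · rw [update_of_ne hrd]; simp

/-- Push a fixed word. -/
def pushW (r : ℕ) : List Bool → Prog
  | [] => skip
  | b :: l => .seq (pushW r l) (.push r b)

theorem pushW_sound {r : ℕ} : ∀ {l : List Bool} {t : ℕ} {σ σ' : State}, Run O (pushW r l) t σ σ' →
    σ' = update σ r (l ++ σ r) := by
  intro l
  induction l with
  | nil => intro t σ σ' h; rw [run_skip h]; simp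
  | cons b l ih =>
    rintro t σ σ' ⟨t1, t2, τ, -, h1, -, rfl⟩
    rw [ih h1]
    simp

theorem pushW_complete {r : ℕ} : ∀ (l : List Bool) (σ : State),
    Run O (pushW r l) l.length σ (update σ r (l ++ σ r)) := by
  intro l
  induction l with
  | nil => intro σ; simpa [pushW] using run_skip' σ
  | cons b l ih =>
    intro σ
    refine ⟨l.length, 1, _, by simp, ih σ, rfl, ?_⟩
    simp

/-- The language of all coded facts. -/
def CodeLang (O : List Bool → Bool) (N : ℕ) : Lang := {z | ∃ w, O (ask N z w) = true}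

theorem codeLang_mem {en : ℕ → Prog × ℕ} (hcodes : ∀ s, O (false :: s) = true →
    IsCode en (false :: s)) (N : ℕ) : CodeLang O N ∈ NEXPLang O := by
  show NEXP O _
  rw [nexp_iff]
  have hE : PolyB fun n => 3 * EE en N n + 2 :=
    ((PolyB.const 3).mul ((PolyB.id.add (PolyB.id.pow _)).add (PolyB.const _))).add (PolyB.const 2)
  have hEmono : Monotone (EE en N) := by
    intro a b hab
    unfold EE
    have := Nat.pow_le_pow_left hab (en N).2
    omega
  have hwmono : Monotone (wl en N) := by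
    intro a b hab
    unfold wl
    have h1 := hEmono hab
    have h2 : (3 * EE en N a + 2) ^ (N + 1) ≤ (3 * EE en N b + 2) ^ (N + 1) :=
      Nat.pow_le_pow_left (by omega) _
    have h3 : 2 ^ ((3 * EE en N a + 2) ^ (N + 1) + (N + 1)) ≤
        2 ^ ((3 * EE en N b + 2) ^ (N + 1) + (N + 1)) :=
      Nat.pow_le_pow_right (by norm_num) (by omega)
    omega
  have hwE : EP (wl en N) := by
    have h1 : EP fun n => (3 * EE en N n + 2) + 1 + 2 ^ ((3 * EE en N n + 2) ^ (N + 1) + (N + 1)) :=
      ((EP.of_poly (hE.add (PolyB.const 1)))).add (EP.pow2 ((hE.pow (N + 1)).add (PolyB.const _)))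
    exact h1.mono fun n => le_of_eq rfl
  set pre : List Bool := false :: (List.replicate N true ++ [false]) with hpre
  have hask : ∀ z w, ask N z w = pre ++ ((z.flatMap fun b => [b, b]) ++ ([true, false] ++ w)) := by
    intro z w
    simp [ask, hpre, pair]
  refine ⟨fun n => wl en N n + (2 + ((2 * n + 1) + ((3 * n + 1) + (pre.length + 1)))),
    hwE.add
      (EP.of_poly ((PolyB.const 2).add ((((PolyB.const 2).mul PolyB.id).add (PolyB.const 1)).add
        ((((PolyB.const 3).mul PolyB.id).add (PolyB.const 1)).add (PolyB.const _))))),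
    .seq (guess 1) (.seq (pushW 1 [true, false]) (.seq (mv 0 2) (.seq (dbl 2 1)
      (.seq (pushW 1 pre) (.query 1 true))))), fun e => ⟨?_, ?_⟩⟩
  · rintro t σ' ⟨t3, t4, τ2, -, h3, t1, t2, τ1, -, h2, t5, t6, τ3, -, h4, t7, t8, τ4, -, h5,
      t9, t10, τ5, -, h6, -, h7, rfl⟩
    rw [run_guess] at h3
    obtain ⟨w, -, rfl⟩ := h3
    rw [pushW_sound h2] at h4
    rw [run_mv (by norm_num)] at h4
    obtain ⟨-, rfl⟩ := h4
    rw [run_dbl (by norm_num)] at h5
    obtain ⟨-, rfl⟩ := h5
    rw [pushW_sound h6] at h7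
    refine ⟨w, ?_⟩
    rw [hask]
    have a2 : init e 2 = [] := init_ge e (r := 2) (by norm_num)
    have a1 : init e 1 = [] := init_ge e (r := 1) le_rfl
    have a0 : init e 0 = e 0 := init0 e
    simpa [a2, a1, a0] using h7
  · rintro ⟨w, hw⟩
    have hwl : w.length ≤ wl en N (size e) := by
      obtain ⟨N', x', r', w', h3, h4⟩ := hcodes _ hw
      have h3' : ask N (e 0) w = ask N' (pair x' (bt r')) w' := h3
      obtain ⟨rfl, hz, rfl⟩ := ask_injective h3'
      have h5 : x'.length ≤ size e := by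
        have := len_le_size e 0
        rw [hz, length_pair] at this
        omega
      rw [h4]
      exact hwmono h5
    have h3 : Run O (guess 1) w.length (init e) (update (init e) 1 (w ++ init e 1)) :=
      run_guess.2 ⟨w, rfl, rfl⟩
    set τ1 := update (init e) 1 (w ++ init e 1) with hτ1
    have a0 : τ1 0 = e 0 := by rw [hτ1, update_of_ne (by norm_num), init0]
    have a1 : τ1 1 = w := by
      rw [hτ1, update_self, init_ge e (r := 1) le_rfl, List.append_nil]
    have a2 : τ1 2 = [] := by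
      rw [hτ1, update_of_ne (by norm_num), init_ge e (r := 2) (by norm_num)]
    have h4 := pushW_complete (O := O) (r := 1) [true, false] τ1
    set τ2 := update τ1 1 ([true, false] ++ τ1 1) with hτ2
    have b0 : τ2 0 = e 0 := by rw [hτ2, update_of_ne (by norm_num), a0]
    have b1 : τ2 1 = [true, false] ++ w := by rw [hτ2, update_self, a1]
    have b2 : τ2 2 = [] := by rw [hτ2, update_of_ne (by norm_num), a2]
    have h5 : Run O (mv 0 2) (2 * (e 0).length + 1) τ2
        (update (update τ2 0 []) 2 (e 0).reverse) :=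
      (run_mv (by norm_num)).2 ⟨by rw [b0], by rw [b0, b2, List.append_nil]⟩
    set τ3 := update (update τ2 0 []) 2 (e 0).reverse with hτ3
    have c1 : τ3 1 = [true, false] ++ w := by
      rw [hτ3, update_of_ne (by norm_num), update_of_ne (by norm_num), b1]
    have c2 : τ3 2 = (e 0).reverse := by rw [hτ3, update_self]
    have h6 : Run O (dbl 2 1) (3 * (e 0).length + 1) τ3
        (update (update τ3 2 []) 1 (((e 0).flatMap fun b => [b, b]) ++ ([true, false] ++ w))) :=
      (run_dbl (by norm_num)).2 ⟨by rw [c2, List.length_reverse], by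
        rw [c2, c1, List.reverse_reverse]⟩
    set τ4 := update (update τ3 2 []) 1 (((e 0).flatMap fun b => [b, b]) ++ ([true, false] ++ w))
      with hτ4
    have d1 : τ4 1 = ((e 0).flatMap fun b => [b, b]) ++ ([true, false] ++ w) := by
      rw [hτ4, update_self]
    have h7 := pushW_complete (O := O) (r := 1) pre τ4
    refine ⟨w.length + (2 + ((2 * (e 0).length + 1) + ((3 * (e 0).length + 1) +
      (pre.length + 1)))), _, ?_, _, _, _, rfl, h3, _, _, _, rfl, h4, _, _, _, rfl, h5,
      _, _, _, rfl, h6, _, _, _, rfl, h7, rfl, ?_, rfl⟩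
    · have e0 := len_le_size e 0
      refine Nat.add_le_add hwl ?_
      omega
    · rw [update_self, d1, ← hask]
      exact hw

/-! ### The upper bound -/

theorem census_lt {V : ℕ} (hV : 1 ≤ V) (O : List Bool → Bool) (n : ℕ) : census V O n < V := by
  classical
  unfold census
  have := Finset.card_filter_le (Finset.range (V - 1)) (fun i => xs n i ∈ WitLang O)
  rw [Finset.card_range] at this
  omega

theorem length_tag {en : ℕ → Prog × ℕ} (hen : ∀ N, (en N).2 ≤ N) {s ν c : ℕ → ℕ}
    {u : ℕ → ℕ → ℕ} (hmono : ∀ k, lev ν k < lev ν (k + 1)) (O : List Bool → Bool) {N c' : ℕ}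
    (hc : ∀ c n m, N < c → n ≤ m + m ^ N + N → u c n ≤ s m + c') (m : ℕ) :
    (bt (tag (fun k => 2 ^ u (c k) (ν k)) ν c O N (qlen en N m))).length ≤ s m + c' := by
  classical
  set M := qlen en N m with hM
  by_cases h : ∃ k, lev ν k ≤ M ∧ M < lev ν (k + 1) ∧ N < c k
  · obtain ⟨k, h1, h2, h3⟩ := h
    have h4 : ν k ≤ EE en N m := le_EE h1
    have h5 : EE en N m ≤ m + m ^ N + N := by
      have h6 := hen N
      unfold EE
      rcases Nat.eq_zero_or_pos m with rfl | hm
      · rcases Nat.eq_zero_or_pos (en N).2 with h7 | h7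
        · rw [h7]
          rcases Nat.eq_zero_or_pos N with rfl | h8
          · simp
          · have : 0 ^ N = 0 := Nat.zero_pow h8
            rw [this]
            simp
            omega
        · rw [Nat.zero_pow h7]
          have h8 : 0 ≤ 0 ^ N := Nat.zero_le _
          omega
      · have : m ^ (en N).2 ≤ m ^ N := Nat.pow_le_pow_right hm h6
        omega
    rw [tag_eq hmono h1 h2 h3]
    exact le_trans (length_bt (census_lt Nat.one_le_two_pow O (ν k)))
      (hc _ _ _ h3 (le_trans h4 h5))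
  · push Not at h
    have h0 : tag (fun k => 2 ^ u (c k) (ν k)) ν c O N M = 0 := by
      unfold tag
      refine Finset.sum_eq_zero fun k _ => ?_
      rw [if_neg]
      rintro ⟨h1, h2, h3⟩
      have := h k h1 h2
      omega
    rw [h0]
    exact Nat.zero_le _

theorem enough {en : ℕ → Prog × ℕ} (hen : Surjective en) (hen2 : ∀ N, (en N).2 ≤ N)
    {s ν c : ℕ → ℕ} {u : ℕ → ℕ → ℕ}
    (hup : ∀ N, ∃ c', ∀ c n m, N < c → n ≤ m + m ^ N + N → u c n ≤ s m + c')
    (hmono : ∀ k, lev ν k < lev ν (k + 1))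
    (hO : Good en (fun k => 2 ^ u (c k) (ν k)) ν c O) {L : Lang} (hL : L ∈ NEXPLang O) :
    ∃ c, Lᶜ ∈ WithAdvice (NEXPLang O) {f | ∀ n, (f n).length ≤ s n + c} := by
  obtain ⟨p, c0, hp⟩ := exists_prog hL
  obtain ⟨N, hN⟩ := hen (p, c0)
  have hLN : ∀ x, x ∈ L ↔ AccN en O N x := by
    intro x
    rw [hp]
    unfold AccN
    rw [hN]
  obtain ⟨c', hc'⟩ := hup N
  refine ⟨c', CodeLang O N, codeLang_mem hO.codes N,
    fun n => bt (tag (fun k => 2 ^ u (c k) (ν k)) ν c O N (qlen en N n)),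
    fun n => length_tag hen2 hmono O hc' n, ?_⟩
  ext x
  show x ∉ L ↔ pair x _ ∈ CodeLang O N
  rw [hLN]
  constructor
  · intro h
    obtain ⟨w, -, hw⟩ := hO.complete N x h
    exact ⟨w, hw⟩
  · rintro ⟨w, h2⟩
    obtain ⟨N', x', r', w', h4, h5⟩ := hO.codes _ h2
    obtain ⟨rfl, rfl, h6, rfl⟩ := cd_injective (show cd N x _ w = cd N' x' r' w' from h4)
    exact hO.sound N x _ w h5 h2 rfl

/-! ### The main result -/

/-- All strings shorter than `m`. -/
def short (m : ℕ) : Finset (List Bool) := (Finset.range m).biUnion strs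

theorem mem_short {m : ℕ} {a : List Bool} : a ∈ short m ↔ a.length < m := by
  unfold short
  rw [Finset.mem_biUnion]
  constructor
  · rintro ⟨i, hi, ha⟩
    rw [mem_strs.1 ha]
    exact Finset.mem_range.1 hi
  · intro h
    exact ⟨a.length, Finset.mem_range.2 h, mem_strs.2 rfl⟩

theorem card_short (m : ℕ) : (short m).card < 2 ^ m := by
  induction m with
  | zero => simp [short]
  | succ m ih =>
    have h1 : short (m + 1) = short m ∪ strs m := by
      ext a
      rw [Finset.mem_union, mem_short, mem_short, mem_strs]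
      omega
    rw [h1, pow_succ]
    have h2 := Finset.card_union_le (short m) (strs m)
    rw [card_strs] at h2
    omega

theorem exists_prog' {B : Lang} (hB : B ∈ NEXPLang O) :
    ∃ (p : Prog) (c : ℕ), ∀ z T, 2 ^ (z.length ^ c + c) ≤ T → (z ∈ B ↔ Acc O p T z) := by
  obtain ⟨c, p, hp⟩ := hB
  refine ⟨p, c, fun z T hT => ⟨fun hz => ?_, fun hz => ?_⟩⟩
  · obtain ⟨t, σ', ht, h⟩ := (hp fun _ => z).2 hz
    have hs : size (fun _ : Fin 1 => z) = z.length := by simp [size]
    rw [hs] at ht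
    exact ⟨t, σ', le_trans ht hT, h⟩
  · obtain ⟨t, σ', -, h⟩ := hz
    exact (hp fun _ => z).1 _ _ h

theorem exists_enum : ∃ en : ℕ → Prog × ℕ, Surjective en ∧ ∀ N, (en N).2 ≤ N := by
  have : Nonempty Prog := ⟨skip⟩
  obtain ⟨f, hf⟩ := exists_surjective_nat (Prog × ℕ)
  refine ⟨fun N => if (f N.unpair.1).2 ≤ N then f N.unpair.1 else (skip, 0), fun y => ?_,
    fun N => ?_⟩
  · obtain ⟨a, ha⟩ := hf y
    refine ⟨Nat.pair a (f a).2, ?_⟩
    have h1 : (f (Nat.pair a (f a).2).unpair.1).2 ≤ Nat.pair a (f a).2 := by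
      rw [Nat.unpair_pair]
      exact Nat.right_le_pair _ _
    simp only [if_pos h1]
    rw [Nat.unpair_pair]
    exact ha
  · by_cases h1 : (f N.unpair.1).2 ≤ N
    · simp only [if_pos h1]
      exact h1
    · simp only [if_neg h1]
      exact Nat.zero_le _

/-- The construction. At stage `k` the program with exponent `c` is attacked at a length `n` with
`P c n`, against all advice shorter than `u c n`. -/
theorem engine {s : ℕ → ℕ} {u : ℕ → ℕ → ℕ} {P : ℕ → ℕ → Prop}
    (hP : ∀ c, ∃ᶠ n in atTop, P c n) (hu : ∀ c n, P c n → u c n + 1 ≤ n)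
    (hup : ∀ N, ∃ c', ∀ c n m, N < c → n ≤ m + m ^ N + N → u c n ≤ s m + c') :
    ∃ O : List Bool → Bool,
      (∀ L ∈ NEXPLang O, ∃ c, Lᶜ ∈ WithAdvice (NEXPLang O) {f | ∀ n, (f n).length ≤ s n + c}) ∧
      ∀ B ∈ NEXPLang O, ∃ c, ∃ᶠ n in atTop, P c n ∧ ∀ a : List Bool, a.length < u c n →
        ∃ x : List Bool, x.length = n ∧ ¬ (x ∉ WitLang O ↔ pair x a ∈ B) := by
  classical
  have : Nonempty Prog := ⟨skip⟩
  obtain ⟨en, hen, hen2⟩ := exists_enum
  obtain ⟨rq, hrq⟩ := exists_surjective_nat (Prog × ℕ × ℕ)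
  obtain ⟨ν, hν, hT, hS⟩ := exists_lengths hP hu (fun k => (rq k).2.1)
  have hν2 : ∀ k, u (rq k).2.1 (ν k) + 1 ≤ ν k := fun k => hu _ _ (hν k)
  have hν1 : ∀ k, 1 ≤ ν k := fun k => by have := hν2 k; omega
  obtain ⟨O, hO, hreq⟩ := exists_oracle en (V := fun k => 2 ^ u (rq k).2.1 (ν k))
    (ω := fun k => (rq k).2.1) (fun k => (rq k).2.1) ν
    (fun k => (rq k).1) (fun k => short (u (rq k).2.1 (ν k))) (fun k => card_short _)
    (fun k a ha => by
      have h1 := mem_short.1 ha
      have h2 := hν2 k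
      omega) hν1
    (fun k => Nat.pow_le_pow_right (by norm_num) (by have := hν2 k; omega)) hT hS
    (fun k => le_rfl)
  have hmono := lev_lt hS
  refine ⟨O, fun L hL => enough hen hen2 hup hmono hO hL, fun B hB => ?_⟩
  obtain ⟨p, c, hp⟩ := exists_prog' hB
  refine ⟨c, ?_⟩
  rw [frequently_atTop]
  intro m
  have hνmono : ∀ k, k ≤ ν k := by
    intro k
    induction k with
    | zero => exact Nat.zero_le _
    | succ k ih =>
      have h1 := hS k
      unfold sb at h1
      omega
  have hex : ∃ k, m ≤ k ∧ (rq k).1 = p ∧ (rq k).2.1 = c := by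
    by_contra hcon
    push Not at hcon
    choose g hg using fun j : ℕ => hrq (p, c, j)
    have hginj : Injective g := by
      intro j j' h
      have h1 := hg j
      rw [h, hg j'] at h1
      simpa using h1.symm
    have hlt : ∀ j, g j < m := by
      intro j
      by_contra hge
      push Not at hge
      refine hcon (g j) hge ?_ ?_
      · rw [hg j]
      · rw [hg j]
    have hc := Finset.card_le_card_of_injOn (s := Finset.range (m + 1)) (t := Finset.range m) g
      (fun j _ => Finset.mem_coe.2 (Finset.mem_range.2 (hlt j))) (fun j _ j' _ h => hginj h)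
    rw [Finset.card_range, Finset.card_range] at hc
    omega
  obtain ⟨k, hk, hk1, hk2⟩ := hex
  have hPk := hν k
  rw [hk2] at hPk
  refine ⟨ν k, le_trans hk (hνmono k), hPk, fun a ha => ?_⟩
  obtain ⟨x, hx, h2⟩ := hreq k a (mem_short.2 (by rw [hk2]; exact ha))
  refine ⟨x, hx, fun h3 => h2 ?_⟩
  rw [h3, hk1, hk2]
  refine hp _ _ ?_
  unfold tb
  refine Nat.pow_le_pow_right (by norm_num) (Nat.add_le_add_right (Nat.pow_le_pow_left ?_ c) c)
  rw [length_pair, hx]
  have := hν2 k
  rw [hk2] at this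
  omega

/-- Slowly varying functions: exact to the bit at infinitely many lengths. -/
theorem spectrum_exact {s : ℕ → ℕ} {C : ℕ} (hm : Monotone s) (hs : ∀ n, s (n ^ 2) ≤ s n + C) :
    ∃ O : List Bool → Bool,
      (∀ L ∈ NEXPLang O, ∃ c, Lᶜ ∈ WithAdvice (NEXPLang O) {f | ∀ n, (f n).length ≤ s n + c}) ∧
      ∀ B ∈ NEXPLang O, ∃ᶠ n in atTop, ∀ a : List Bool, a.length < s n →
        ∃ x : List Bool, x.length = n ∧ ¬ (x ∉ WitLang O ↔ pair x a ∈ B) := by
  obtain ⟨O, h1, h2⟩ := engine (s := s) (u := fun _ n => s n) (P := fun _ n => s n + 1 ≤ n)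
    (fun _ => (slow_small hm hs).frequently) (fun _ _ h => h) (fun N => by
      obtain ⟨c', hc'⟩ := slow_poly hm hs N
      exact ⟨c', fun _ n m _ h => le_trans (hm h) (hc' m)⟩)
  refine ⟨O, h1, fun B hB => ?_⟩
  obtain ⟨c, hc⟩ := h2 B hB
  exact hc.mono fun n h => h.2

/-- The integer part of the `e`-th root. -/
def rt (e n : ℕ) : ℕ := Nat.findGreatest (fun r => r ^ e ≤ n) n

theorem rt_pow_le {e : ℕ} (he : 1 ≤ e) (n : ℕ) : rt e n ^ e ≤ n :=
  Nat.findGreatest_spec (P := fun r => r ^ e ≤ n) (Nat.zero_le n) (by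
    rw [Nat.zero_pow (by omega)]; exact Nat.zero_le n)

theorem rt_le (e n : ℕ) : rt e n ≤ n := Nat.findGreatest_le n

/-- All nondecreasing functions with `liminf (s(n) - s(n^(1/e))) < ∞` for every `e`. -/
theorem tight_exists {s : ℕ → ℕ} (hm : Monotone s) (h1 : ∀ᶠ n in atTop, s n + 1 ≤ n)
    (h2 : ∀ e, 2 ≤ e → ∃ B, ∃ᶠ n in atTop, s n ≤ s (rt e n) + B) :
    ∃ O : List Bool → Bool,
      (∀ L ∈ NEXPLang O, ∃ c, Lᶜ ∈ WithAdvice (NEXPLang O) {f | ∀ n, (f n).length ≤ s n + c}) ∧
      ∀ a : ℕ → ℕ, (∀ c, ∀ᶠ n in atTop, a n + c ≤ s n) → ∀ c,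
        (WitLang O)ᶜ ∉ WithAdvice (NEXPLang O) {f | ∀ n, (f n).length ≤ a n + c} := by
  choose B hB using fun e => h2 (e + 2) (by omega)
  obtain ⟨O, h3, h4⟩ := engine (s := s) (u := fun e n => s (rt (e + 2) n))
    (P := fun e n => s n ≤ s (rt (e + 2) n) + B e ∧ s (rt (e + 2) n) + 1 ≤ n)
    (fun e => by
      refine ((hB e).and_eventually h1).mono fun n hn => ⟨hn.1, ?_⟩
      have h5 := hm (rt_le (e + 2) n)
      have h6 := hn.2
      omega) (fun e n h => h.2) (fun N => by
      refine ⟨s (N + 1), fun c n m hc hn => ?_⟩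
      have h6 := rt_pow_le (e := c + 2) (by omega) n
      rcases Nat.eq_zero_or_pos m with rfl | hmpos
      · have h7 : n ≤ N + 1 := by
          have : 0 ^ N ≤ 1 := by
            rcases Nat.eq_zero_or_pos N with rfl | h8
            · simp
            · rw [Nat.zero_pow h8]; omega
          omega
        have h8 : s (rt (c + 2) n) ≤ s (N + 1) := hm (le_trans (rt_le _ _) h7)
        show s (rt (c + 2) n) ≤ _
        omega
      · have h7 : rt (c + 2) n ≤ m := by
          by_contra hcon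
          push Not at hcon
          have h8 : (m + 1) ^ (c + 2) ≤ rt (c + 2) n ^ (c + 2) := Nat.pow_le_pow_left hcon _
          have h9 : m + m ^ N + N < (m + 1) ^ (c + 2) := by
            have g1 : m + 1 ≤ (m + 1) ^ (N + 1) := Nat.le_self_pow (by omega) _
            have g2 : m ^ N ≤ (m + 1) ^ (N + 1) :=
              le_trans (Nat.pow_le_pow_left (Nat.le_succ m) N)
                (Nat.pow_le_pow_right (by omega) (by omega))
            have g3 : N + 1 < (m + 1) ^ (N + 1) :=
              lt_of_lt_of_le Nat.lt_two_pow_self (Nat.pow_le_pow_left (by omega) _)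
            have g4 : (m + 1) ^ (N + 1) * 2 ≤ (m + 1) ^ (N + 2) := by
              rw [pow_succ (m + 1) (N + 1)]
              exact Nat.mul_le_mul_left _ (by omega)
            have g5 : (m + 1) ^ (N + 2) * 2 ≤ (m + 1) ^ (N + 3) := by
              rw [pow_succ (m + 1) (N + 2)]
              exact Nat.mul_le_mul_left _ (by omega)
            have g6 : (m + 1) ^ (N + 3) ≤ (m + 1) ^ (c + 2) :=
              Nat.pow_le_pow_right (by omega) (by omega)
            omega
          omega
        have h8 : s (rt (c + 2) n) ≤ s m := hm h7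
        show s (rt (c + 2) n) ≤ _
        omega)
  refine ⟨O, h3, ?_⟩
  rintro a ha c ⟨D, hD, f, hf, h⟩
  obtain ⟨e, he⟩ := h4 D hD
  obtain ⟨n, ⟨⟨h5, -⟩, h6⟩, h7⟩ := (he.and_eventually (ha (c + B e + 1))).exists
  have hfn : (f n).length ≤ a n + c := hf n
  obtain ⟨x, hx, h8⟩ := h6 (f n) (by omega)
  refine h8 ?_
  have h9 := Set.ext_iff.1 h x
  rw [Set.mem_compl_iff] at h9
  rw [← hx]
  exact h9

end Pool.Agent.LibSpec4
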