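import Pool.Agent.LibSpec4.Iff
import Pool.Agent.LibSpec30.Defs

/-!
The characterisation of the exact advice rates below `n ^ β` with the integer root of Mathlib.
-/

namespace Pool.Agent.LibSpec4

open Function Filter Pool.Agent.LibNexp

theorem rt_eq_nthRoot {e : ℕ} (he : 1 ≤ e) (n : ℕ) : rt e n = Nat.nthRoot e n :=
  le_antisymm ((Nat.le_nthRoot_iff (by omega)).2 (rt_pow_le he n))
    (le_rt he (Nat.pow_nthRoot_le (Or.inl (by omega))))

theorem tendsto_nat_sub_iff {s a : ℕ → ℕ} : Tendsto (fun n => s n - a n) atTop atTop ↔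
    Tendsto (fun n => (s n : ℤ) - a n) atTop atTop := by
  rw [tendsto_sub_iff, tendsto_atTop]
  constructor
  · intro h c
    obtain ⟨n₀, hn⟩ := eventually_atTop.1 (h (c + 1))
    refine ⟨n₀, fun n hn' => ?_⟩
    have h1 : c + 1 ≤ s n - a n := hn n hn'
    omega
  · intro h b
    obtain ⟨n₀, hn⟩ := h b
    filter_upwards [eventually_ge_atTop n₀] with n hn'
    have h1 := hn n hn'
    omega

theorem tight_iff {O : List Bool → Bool} {s : ℕ → ℕ} : LibSpec30.Tight O s ↔ Tight O s := by
  constructor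
  · rintro ⟨h1, h2⟩
    exact ⟨h1, fun a ha h3 => h2 a h3 (tendsto_nat_sub_iff.2 ha)⟩
  · rintro ⟨h1, h2⟩
    exact ⟨h1, fun a h3 ha => h2 a (tendsto_nat_sub_iff.1 ha) h3⟩

/-- The exact rates below `n ^ β`. -/
theorem spectrum {s : ℕ → ℕ} (hm : Monotone s) {β : ℝ} (hβ : β < 1)
    (hs : ∀ᶠ n : ℕ in atTop, (s n : ℝ) ≤ (n : ℝ) ^ β) :
    (∃ O : List Bool → Bool, LibSpec30.Tight O s) ↔
      ∀ e : ℕ, 1 ≤ e → ¬ Tendsto (fun n => s n - s (Nat.nthRoot e n)) atTop atTop := by
  simp only [tight_iff]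
  rw [spectrum_iff hm hβ hs]
  constructor
  · intro h e he
    rcases Nat.lt_or_ge e 2 with h1 | h1
    · have h2 : e = 1 := by omega
      subst h2
      intro h3
      have h4 := (h3.eventually (eventually_ge_atTop 1)).exists
      obtain ⟨n, hn⟩ := h4
      rw [← rt_eq_nthRoot le_rfl] at hn
      have h5 : n ≤ rt 1 n := le_rt le_rfl (by simp)
      have h6 := hm h5
      omega
    · intro h3
      refine h e h1 ?_
      rw [← tendsto_nat_sub_iff]
      simpa only [rt_eq_nthRoot he] using h3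
  · intro h e he h3
    refine h e (by omega) ?_
    rw [← tendsto_nat_sub_iff] at h3
    simpa only [rt_eq_nthRoot (show 1 ≤ e by omega)] using h3

end Pool.Agent.LibSpec4
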