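import Pool.Agent.LibSpec4.High

/-!
The exact advice rates `s n ≤ n - ε log n`: a nondecreasing function `s` of this kind is the exact
number of advice bits for complementing nondeterministic exponential time relative to some oracle
if and only if `s(n) - s(n^(1/e))` does not tend to infinity for any `e`.
-/

namespace Pool.Agent.LibSpec4

open Function Filter Pool.Agent.LibNexp Pool.Agent.LibBHN Pool.Agent.LibSelfLaw
  Pool.Agent.LibDual85

variable {O : List Bool → Bool}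

theorem slow_rt {e : ℕ} (he : 1 ≤ e) : Slow O (rt e) := by
  have h1 : frac 1 e = rt e := by
    funext n
    unfold frac
    rw [pow_one]
  rw [← h1]
  exact slow_frac le_rfl he

theorem eventually_bound {s : ℕ → ℕ} (hs : ∀ᶠ n : ℕ in atTop, s n ≤ n) : ∃ K, ∀ n, s n ≤ n + K := by
  obtain ⟨n₀, hn₀⟩ := eventually_atTop.1 hs
  refine ⟨∑ i ∈ Finset.range n₀, s i, fun n => ?_⟩
  rcases Nat.lt_or_ge n n₀ with h1 | h1
  · have := Finset.single_le_sum (f := s) (fun i _ => Nat.zero_le _) (Finset.mem_range.2 h1)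
    omega
  · have := hn₀ n h1
    omega

theorem enough_savings {s : ℕ → ℕ} {ε : ℝ} (hε : 0 < ε)
    (hs : ∀ᶠ n : ℕ in atTop, (s n : ℝ) ≤ n - ε * Real.log n) (h : Enough O s) (N : ℕ) :
    Enough O fun n => n - N * Nat.log 2 (n + 1) := by
  have hl2 : 0 < Real.log 2 := Real.log_pos (by norm_num)
  have hl2' : Real.log 2 ≤ 1 := by
    have := Real.log_two_lt_d9
    linarith
  have hlog : ∀ n : ℕ, 0 ≤ Real.log ((n : ℝ) + 1) := fun n => Real.log_nonneg (by
    have : (0 : ℝ) ≤ n := Nat.cast_nonneg n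
    linarith)
  have hbd : ∃ C : ℝ, ∀ n : ℕ, (s n : ℝ) ≤ n - ε * Real.log ((n : ℝ) + 1) + C := by
    obtain ⟨n₀, hn₀⟩ := eventually_atTop.1 hs
    refine ⟨ε + ∑ i ∈ Finset.range (n₀ + 1), ((s i : ℝ) + ε * Real.log ((i : ℝ) + 1)),
      fun n => ?_⟩
    have hpos : ∀ i ∈ Finset.range (n₀ + 1), 0 ≤ (s i : ℝ) + ε * Real.log ((i : ℝ) + 1) :=
      fun i _ => by
        have := hlog i
        positivity
    rcases Nat.lt_or_ge n (n₀ + 1) with h1 | h1
    · have h2 := Finset.single_le_sum hpos (Finset.mem_range.2 h1)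
      have h3 : (0 : ℝ) ≤ n := Nat.cast_nonneg n
      linarith
    · have h2 := hn₀ n (by omega)
      have h3 : 0 ≤ ∑ i ∈ Finset.range (n₀ + 1), ((s i : ℝ) + ε * Real.log ((i : ℝ) + 1)) :=
        Finset.sum_nonneg hpos
      have h4 : (1 : ℝ) ≤ n := by
        have : 1 ≤ n := by omega
        exact_mod_cast this
      have h5 : Real.log ((n : ℝ) + 1) ≤ Real.log n + 1 := by
        have h6 : (n : ℝ) + 1 ≤ 2 * n := by linarith
        have h7 := Real.log_le_log (by linarith) h6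
        rw [Real.log_mul (by norm_num) (by linarith)] at h7
        linarith
      have h6 : ε * Real.log ((n : ℝ) + 1) ≤ ε * (Real.log n + 1) :=
        mul_le_mul_of_nonneg_left h5 hε.le
      linarith
  obtain ⟨C, hC⟩ := hbd
  have hSav : Sav O ε := by
    intro L hL
    obtain ⟨c, B, hB, f, hf, hfB⟩ := h L hL
    refine ⟨C + c, B, hB, f, fun n => ?_, hfB⟩
    have h1 : (f n).length ≤ s n + c := hf n
    have h2 : ((f n).length : ℝ) ≤ s n + c := by exact_mod_cast h1
    have h3 := hC n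
    show ((f n).length : ℝ) ≤ n - ε * Real.log ((n : ℝ) + 1) + (C + c)
    linarith
  intro L hL
  obtain ⟨c, B, hB, f, hf, hfB⟩ := hSav.law hε ((N : ℝ) / Real.log 2) L hL
  refine ⟨⌈|c|⌉₊, B, hB, f, fun n => ?_, hfB⟩
  have h1 : ((f n).length : ℝ) ≤ n - (N : ℝ) / Real.log 2 * Real.log ((n : ℝ) + 1) + c := hf n
  have h2 := natlog_le n
  have h3 : (N : ℝ) * Nat.log 2 (n + 1) ≤ (N : ℝ) / Real.log 2 * Real.log ((n : ℝ) + 1) := by
    rw [div_mul_eq_mul_div, le_div_iff₀ hl2, mul_assoc]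
    exact mul_le_mul_of_nonneg_left h2 (Nat.cast_nonneg N)
  have h4 : |c| ≤ ⌈|c|⌉₊ := Nat.le_ceil _
  have h5 := le_abs_self c
  have h6 : (((f n).length + N * Nat.log 2 (n + 1) : ℕ) : ℝ) ≤ ((n + ⌈|c|⌉₊ : ℕ) : ℝ) := by
    push_cast
    linarith
  have h7 : (f n).length + N * Nat.log 2 (n + 1) ≤ n + ⌈|c|⌉₊ := by exact_mod_cast h6
  show (f n).length ≤ n - N * Nat.log 2 (n + 1) + ⌈|c|⌉₊
  omega

theorem eventually_lt {s : ℕ → ℕ} {ε : ℝ} (hε : 0 < ε)
    (hs : ∀ᶠ n : ℕ in atTop, (s n : ℝ) ≤ n - ε * Real.log n) : ∀ᶠ n in atTop, s n + 1 ≤ n := by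
  have h1 : Tendsto (fun n : ℕ => ε * Real.log (n : ℝ)) atTop atTop :=
    Tendsto.const_mul_atTop hε (Real.tendsto_log_atTop.comp tendsto_natCast_atTop_atTop)
  filter_upwards [hs, h1.eventually_ge_atTop 1] with n h2 h3
  have h4 : (s n : ℝ) + 1 ≤ n := by linarith
  exact_mod_cast h4

/-- Self-improvement: for every oracle and every `s n ≤ n - ε log n`. -/
theorem enough_high {s : ℕ → ℕ} {ε : ℝ} (hε : 0 < ε)
    (hs : ∀ᶠ n : ℕ in atTop, (s n : ℝ) ≤ n - ε * Real.log n) (h : Enough O s) {e : ℕ}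
    (he : 1 ≤ e) : Enough O fun n => max (s (rt e n)) (s n - Nat.log 2 (n + 1)) := by
  obtain ⟨K, hK⟩ := eventually_bound (s := s)
    ((eventually_lt hε hs).mono fun n hn => by omega)
  exact high_step (slow_rt he) (fun n => (rt_lt_iff he).1 (Nat.lt_succ_self _)) hK h
    (enough_savings hε hs h)

theorem not_tight_high {s : ℕ → ℕ} {ε : ℝ} (hε : 0 < ε)
    (hs : ∀ᶠ n : ℕ in atTop, (s n : ℝ) ≤ n - ε * Real.log n) {e : ℕ} (he : 1 ≤ e)
    (ht : Tendsto (fun n => (s n : ℤ) - s (rt e n)) atTop atTop) : ¬ Tight O s := by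
  rintro ⟨h1, h2⟩
  refine h2 _ ?_ (enough_high hε hs h1 he)
  rw [tendsto_sub_iff] at ht ⊢
  intro c
  obtain ⟨n₁, hn₁⟩ := ht c
  refine ⟨max n₁ (2 ^ c), fun n hn => ?_⟩
  have h3 := hn₁ n (le_trans (le_max_left _ _) hn)
  have h4 : c ≤ Nat.log 2 (n + 1) :=
    (Nat.le_log_iff_pow_le (by norm_num) (by omega)).2
      (by have := le_trans (le_max_right _ _) hn; omega)
  rcases le_total (s (rt e n)) (s n - Nat.log 2 (n + 1)) with h5 | h5
  · rw [max_eq_right h5]
    omega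
  · rw [max_eq_left h5]
    exact h3

/-- The exact rates up to `n - ε log n`. -/
theorem spectrum_high {s : ℕ → ℕ} (hm : Monotone s) {ε : ℝ} (hε : 0 < ε)
    (hs : ∀ᶠ n : ℕ in atTop, (s n : ℝ) ≤ n - ε * Real.log n) :
    (∃ O : List Bool → Bool, Tight O s) ↔
      ∀ e : ℕ, 2 ≤ e → ¬ Tendsto (fun n => (s n : ℤ) - s (rt e n)) atTop atTop := by
  constructor
  · rintro ⟨O, h1⟩ e he h3
    exact not_tight_high hε hs (show 1 ≤ e by omega) h3 h1
  · intro h
    obtain ⟨O, h2, h3⟩ := tight_exists hm (eventually_lt hε hs) (fun e he => by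
      have h4 := h e he
      rw [tendsto_sub_iff] at h4
      push Not at h4
      obtain ⟨c, hc⟩ := h4
      refine ⟨c, ?_⟩
      rw [frequently_atTop]
      intro n₀
      obtain ⟨n, hn, hn'⟩ := hc n₀
      exact ⟨n, hn, by omega⟩)
    refine ⟨O, h2, fun a ha h4 => ?_⟩
    have hW : WitLang O ∈ NEXPLang O := ne_sub witLang_mem
    obtain ⟨c, hc⟩ := h4 _ hW
    exact h3 a (fun c => by
      obtain ⟨n₀, hn⟩ := tendsto_sub_iff.1 ha c
      filter_upwards [eventually_ge_atTop n₀] with n hn' using hn n hn') c hc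

/-- The exact rates up to `n - ε log n`, with the integer root of Mathlib. -/
theorem spectrum_full {s : ℕ → ℕ} (hm : Monotone s) {ε : ℝ} (hε : 0 < ε)
    (hs : ∀ᶠ n : ℕ in atTop, (s n : ℝ) ≤ n - ε * Real.log n) :
    (∃ O : List Bool → Bool, LibSpec30.Tight O s) ↔
      ∀ e : ℕ, 1 ≤ e → ¬ Tendsto (fun n => s n - s (Nat.nthRoot e n)) atTop atTop := by
  simp only [tight_iff]
  rw [spectrum_high hm hε hs]
  constructor
  · intro h e he
    rcases Nat.lt_or_ge e 2 with h1 | h1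
    · have h2 : e = 1 := by omega
      subst h2
      intro h3
      obtain ⟨n, hn⟩ := (h3.eventually (eventually_ge_atTop 1)).exists
      rw [← rt_eq_nthRoot le_rfl] at hn
      have h5 : n ≤ rt 1 n := le_rt le_rfl (by simp)
      have h6 := hm h5
      omega
    · intro h3
      refine h e h1 ?_
      rw [← tendsto_nat_sub_iff]
      simpa only [rt_eq_nthRoot he] using h3
  · intro h e he h3
    refine h e (by omega) ?_
    rw [← tendsto_nat_sub_iff] at h3
    simpa only [rt_eq_nthRoot (show 1 ≤ e by omega)] using h3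

/-- For every oracle and every function `s n ≤ n - ε log n`, monotone or not. -/
theorem not_tight_full {s : ℕ → ℕ} {ε : ℝ} (hε : 0 < ε)
    (hs : ∀ᶠ n : ℕ in atTop, (s n : ℝ) ≤ n - ε * Real.log n) {e : ℕ} (he : 1 ≤ e)
    (ht : Tendsto (fun n => s n - s (Nat.nthRoot e n)) atTop atTop) : ¬ LibSpec30.Tight O s := by
  rw [tight_iff]
  refine not_tight_high hε hs he ?_
  rw [← tendsto_nat_sub_iff]
  simpa only [rt_eq_nthRoot he] using ht

end Pool.Agent.LibSpec4
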