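import Pool.Agent.LibSpec4.Final
import Pool.Agent.LibSelfLaw.Savings
import Pool.Agent.LibDual85.Rev

/-!
Self-improvement for arbitrary advice rates `s` with `s n ≤ n - ε log n`: no monotonicity and no
constructibility is needed.
-/

namespace Pool.Agent.LibSpec4

open Function Filter Pool.Agent.LibNexp Pool.Agent.LibBHN Pool.Agent.LibSelfLaw
  Pool.Agent.LibDual85

variable {O : List Bool → Bool}

/-! ### Wrong advice strings -/

/-- The instance `z` says: the padded advice `v` is wrong at length `val u = |y|`, and `y` is a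
witness for that. -/
def Wrong (r : ℕ → ℕ) (L B : Lang) (z y : List Bool) : Prop :=
  r y.length ≤ z.length ∧ y ∈ L ∧ ∃ u v : List Bool, z = pair u v ∧ val u = y.length ∧
    padded B y v

/-- The language of wrong advice strings. -/
def WrongLang (r : ℕ → ℕ) (L B : Lang) : Lang := {z | ∃ y, Wrong r L B z y}

theorem nexp_uv {B : Lang} (hB : B ∈ NEXPLang O) : NEXP O fun e : Fin 2 → List Bool =>
    ∃ u v : List Bool, e 0 = pair u v ∧ val u = (e 1).length ∧ padded B (e 1) v := by
  have h1 : NEXP O fun e : Fin 4 → List Bool => e 0 = pair (e 2) (e 3) ∧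
      (val (e 2) = (e 1).length ∧ padded B (e 1) (e 3)) := by
    refine (((nexp_pairRel (O := O)).reindex ![2, 3, 0]).congr fun e => ?_).and
      ((nexp_valLen 2 1).and (((nexp_padded hB).reindex ![1, 3]).congr fun e => ?_))
    · simp
    · simp
  have h2 := NEXP.exists h1 (g := fun n => n) PolyB.id (by
    rintro e z ⟨h, -⟩
    have a0 : app e z 0 = e 0 := rfl
    have a2 : app e z 2 = e 2 := rfl
    have a3 : app e z 3 = z := rfl
    rw [a0, a2, a3] at h
    have e0 := len_le_size e 0
    rw [h, length_pair] at e0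
    omega)
  have h3 := NEXP.exists h2 (g := fun n => n) PolyB.id (by
    rintro e z ⟨w, h, -⟩
    have a0 : app (app e z) w 0 = e 0 := rfl
    have a2 : app (app e z) w 2 = z := rfl
    have a3 : app (app e z) w 3 = w := rfl
    rw [a0, a2, a3] at h
    have e0 := len_le_size e 0
    rw [h, length_pair] at e0
    omega)
  exact h3.congr fun e => Iff.rfl

theorem nexp_rle {r : ℕ → ℕ} (hr : Slow O r) : NEXP O fun e : Fin 2 → List Bool =>
    r (e 0).length ≤ (e 1).length := by
  have h1 : NEXP O fun e : Fin 3 → List Bool => (e 2).length = r (e 0).length ∧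
      (e 2).length ≤ (e 1).length := (hr.graph.rel 0 2).and (nexp_lenLe 2 1)
  have h2 := NEXP.exists h1 (g := fun n => n) PolyB.id (by
    rintro e z ⟨-, h⟩
    have a1 : app e z 1 = e 1 := rfl
    have a2 : app e z 2 = z := rfl
    rw [a1, a2] at h
    exact h.trans (len_le_size e 1))
  refine h2.congr fun e => ?_
  constructor
  · rintro ⟨z, h3, h4⟩
    have a0 : app e z 0 = e 0 := rfl
    have a1 : app e z 1 = e 1 := rfl
    rw [h3, a0, a1] at h4
    exact h4
  · intro h
    refine ⟨List.replicate (r (e 0).length) true, ?_, ?_⟩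
    · show (List.replicate _ true).length = r (e 0).length
      simp
    · show (List.replicate _ true).length ≤ (e 1).length
      simpa using h

theorem wrongLang_mem {r : ℕ → ℕ} (hr : Slow O r) {L B : Lang} (hL : L ∈ NEXPLang O)
    (hB : B ∈ NEXPLang O) : WrongLang r L B ∈ NEXPLang O := by
  obtain ⟨P, hP1, hP2, hP3⟩ := hr.poly
  have h1 : NEXP O fun e : Fin 2 → List Bool => Wrong r L B (e 0) (e 1) := by
    refine (((nexp_rle hr).reindex ![1, 0]).congr fun e => ?_).and
      ((nexp_mem hL 1).and (nexp_uv hB))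
    simp
  refine (NEXP.exists h1 (g := fun n => P n) hP1 ?_).congr fun e => Iff.rfl
  rintro e y ⟨h, -⟩
  simp only [(app1 e y).1, (app1 e y).2] at h
  exact (hP3 _).trans (hP2 (h.trans (len_le_size e 0)))

/-- A certificate: `z` carries a padded advice string which is certified as not wrong by `B₁` with
advice `t`, and which puts `x` in the complement. -/
def Cert (B B₁ : Lang) (x z t : List Bool) : Prop :=
  pair z t ∈ B₁ ∧ ∃ u v : List Bool, z = pair u v ∧ val u = x.length ∧ padded B x v

theorem nexp_cert4 {B B₁ : Lang} (hB : B ∈ NEXPLang O) (hB₁ : B₁ ∈ NEXPLang O) {k : ℕ}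
    (i j l : Fin k) : NEXP O fun e : Fin k → List Bool => Cert B B₁ (e i) (e j) (e l) := by
  refine (nexp_pair_mem hB₁ j l).and (((nexp_uv hB).reindex ![j, i]).congr fun e => ?_)
  simp

theorem cert_sound {r : ℕ → ℕ} {L B B₁ : Lang} {x z t : List Bool}
    (h1 : z ∉ WrongLang r L B ↔ pair z t ∈ B₁) (hr : r x.length ≤ z.length)
    (h : Cert B B₁ x z t) : x ∉ L := fun hx => h1.2 h.1 ⟨x, hr, hx, h.2⟩

theorem cert_complete {r : ℕ → ℕ} {L B B₁ : Lang} {f : ℕ → List Bool}
    (hf : ∀ y, y ∉ L ↔ pair y (f y.length) ∈ B) {x u t : List Bool} (hx : x ∉ L)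
    (hu : val u = x.length) {k : ℕ}
    (h1 : pair u (f x.length ++ true :: List.replicate k false) ∉ WrongLang r L B ↔
      pair (pair u (f x.length ++ true :: List.replicate k false)) t ∈ B₁) :
    Cert B B₁ x (pair u (f x.length ++ true :: List.replicate k false)) t := by
  refine ⟨h1.1 ?_, u, _, rfl, hu, padded_iff.2 ((hf x).1 hx)⟩
  rintro ⟨y, -, hy, u', v', h2, h3, h4⟩
  obtain ⟨rfl, rfl⟩ := pair_injective h2
  have h5 : y.length = x.length := by rw [← h3, hu]
  rw [← h5, padded_iff] at h4
  exact (hf y).2 h4 hy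

/-! ### Two kinds of advice -/

theorem nexp_head (b : Bool) {k : ℕ} (i j : Fin k) :
    NEXP O fun e : Fin k → List Bool => e j = b :: e i := by
  refine ((nexp_subst (O := O) (fun _ => []) (fun b => [b]) [b]).reindex
    ![i, i, j]).congr fun e => ?_
  simp [misc_flatMap_nil]

theorem join {C₁ C₂ : List Bool → List Bool → Prop}
    (h₁ : NEXP O fun e : Fin 2 → List Bool => C₁ (e 0) (e 1))
    (h₂ : NEXP O fun e : Fin 2 → List Bool => C₂ (e 0) (e 1)) :
    ∃ D ∈ NEXPLang O, ∀ x t, (pair x (false :: t) ∈ D ↔ C₁ x t) ∧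
      (pair x (true :: t) ∈ D ↔ C₂ x t) := by
  have h3 : NEXP O fun e : Fin 3 → List Bool => (e 1 = false :: e 2 ∧ C₁ (e 0) (e 2)) ∨
      (e 1 = true :: e 2 ∧ C₂ (e 0) (e 2)) := by
    refine ((nexp_head false 2 1).and ((h₁.reindex ![0, 2]).congr fun e => ?_)).or
      ((nexp_head true 2 1).and ((h₂.reindex ![0, 2]).congr fun e => ?_))
    · simp
    · simp
  have h4 := NEXP.exists h3 (g := fun n => n) PolyB.id (by
    intro e z h
    have e1 := len_le_size e 1
    have a1 : app e z 1 = e 1 := rfl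
    have a2 : app e z 2 = z := rfl
    rcases h with ⟨h, -⟩ | ⟨h, -⟩ <;>
    · rw [a1, a2] at h
      rw [h, List.length_cons] at e1
      omega)
  obtain ⟨D, hD, hDC⟩ := rel_of_nexp (C := fun x w => ∃ t, (w = false :: t ∧ C₁ x t) ∨
    (w = true :: t ∧ C₂ x t)) (h4.congr fun e => Iff.rfl)
  refine ⟨D, hD, fun x t => ⟨?_, ?_⟩⟩
  · rw [hDC]
    constructor
    · rintro ⟨t', ⟨h, h'⟩ | ⟨h, -⟩⟩
      · rw [List.cons.injEq] at h
        rw [h.2]
        exact h'
      · simp at h
    · intro h
      exact ⟨t, Or.inl ⟨rfl, h⟩⟩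
  · rw [hDC]
    constructor
    · rintro ⟨t', ⟨h, -⟩ | ⟨h, h'⟩⟩
      · simp at h
      · rw [List.cons.injEq] at h
        rw [h.2]
        exact h'
    · intro h
      exact ⟨t, Or.inr ⟨rfl, h⟩⟩

theorem nexp_c1 {r : ℕ → ℕ} (hr : Slow O r) {B B₁ : Lang} (hB : B ∈ NEXPLang O)
    (hB₁ : B₁ ∈ NEXPLang O) : NEXP O fun e : Fin 2 → List Bool =>
      ∃ z : List Bool, z.length = r (e 0).length ∧ Cert B B₁ (e 0) z (e 1) := by
  have h1 : NEXP O fun e : Fin 3 → List Bool => (e 2).length = r (e 0).length ∧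
      Cert B B₁ (e 0) (e 2) (e 1) := (hr.graph.rel 0 2).and (nexp_cert4 hB hB₁ 0 2 1)
  refine (NEXP.exists h1 (g := fun n => n + r 0) (PolyB.id.add (PolyB.const _)) ?_).congr
    fun e => Iff.rfl
  rintro e z ⟨h, -⟩
  simp only [(app2 e z).1, (app2 e z).2.2] at h
  have h2 := hr.le_add (e 0).length
  have h3 := len_le_size e 0
  show _ ≤ size e + r 0
  omega

theorem nexp_c2 {r : ℕ → ℕ} (hr : Slow O r) {B B₂ : Lang} (hB : B ∈ NEXPLang O)
    (hB₂ : B₂ ∈ NEXPLang O) (K : ℕ) : NEXP O fun e : Fin 2 → List Bool =>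
      ∃ μ t z : List Bool, e 1 = pair μ t ∧ val μ = z.length ∧ r (e 0).length ≤ z.length ∧
        z.length ≤ 3 * (e 0).length + K ∧ Cert B B₂ (e 0) z t := by
  have h0 : NEXP O fun e : Fin 2 → List Bool => (e 1).length ≤ 3 * (e 0).length + K := by
    have h1 : NEXP O fun e : Fin 3 → List Bool => (e 2).length = 3 * (e 0).length + K ∧
        (e 1).length ≤ (e 2).length := (nexp_lin 3 K 0 2).and (nexp_lenLe 1 2)
    have h2 := NEXP.exists h1 (g := fun n => 3 * n + K)
      (((PolyB.const 3).mul PolyB.id).add (PolyB.const _)) (by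
        rintro e z ⟨h, -⟩
        simp only [(app2 e z).1, (app2 e z).2.2] at h
        have h3 := len_le_size e 0
        show _ ≤ 3 * size e + K
        omega)
    refine h2.congr fun e => ?_
    simp only [fun z => (app2 e z).1, fun z => (app2 e z).2.1, fun z => (app2 e z).2.2]
    constructor
    · rintro ⟨z, h3, h4⟩
      omega
    · intro h
      exact ⟨List.replicate (3 * (e 0).length + K) true, by simp, by simpa using h⟩
  have h1 : NEXP O fun e : Fin 5 → List Bool => e 1 = pair (e 2) (e 3) ∧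
      (val (e 2) = (e 4).length ∧ (r (e 0).length ≤ (e 4).length ∧
        ((e 4).length ≤ 3 * (e 0).length + K ∧ Cert B B₂ (e 0) (e 4) (e 3)))) := by
    refine (((nexp_pairRel (O := O)).reindex ![2, 3, 1]).congr fun e => ?_).and
      ((nexp_valLen 2 4).and ((((nexp_rle hr).reindex ![0, 4]).congr fun e => ?_).and
        (((h0.reindex ![0, 4]).congr fun e => ?_).and (nexp_cert4 hB hB₂ 0 4 3))))
    · simp
    · simp
    · simp
  have h2 := NEXP.exists h1 (g := fun n => 3 * n + K)
    (((PolyB.const 3).mul PolyB.id).add (PolyB.const _)) (by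
      rintro e z ⟨-, -, -, h, -⟩
      have a0 : app e z 0 = e 0 := rfl
      have a4 : app e z 4 = z := rfl
      rw [a0, a4] at h
      have h3 := len_le_size e 0
      show _ ≤ 3 * size e + K
      omega)
  have h3 := NEXP.exists h2 (g := fun n => n) PolyB.id (by
    rintro e z ⟨w, h, -⟩
    have a1 : app (app e z) w 1 = e 1 := rfl
    have a2 : app (app e z) w 2 = e 2 := rfl
    have a3 : app (app e z) w 3 = z := rfl
    rw [a1, a2, a3] at h
    have e1 := len_le_size e 1
    rw [h, length_pair] at e1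
    omega)
  have h4 := NEXP.exists h3 (g := fun n => n) PolyB.id (by
    rintro e z ⟨w, w', h, -⟩
    have a1 : app (app (app e z) w) w' 1 = e 1 := rfl
    have a2 : app (app (app e z) w) w' 2 = z := rfl
    have a3 : app (app (app e z) w) w' 3 = w := rfl
    rw [a1, a2, a3] at h
    have e1 := len_le_size e 1
    rw [h, length_pair] at e1
    omega)
  exact h4.congr fun e => Iff.rfl

/-! ### Counting -/

theorem log_add_pow (m i : ℕ) : Nat.log 2 ((m + 1) * 2 ^ i) = Nat.log 2 (m + 1) + i := by
  induction i with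
  | zero => simp
  | succ i ih =>
    rw [pow_succ, ← mul_assoc, Nat.log_mul_base (by norm_num) (by positivity), ih]
    ring

theorem log_le_of_root {E m n : ℕ} (h : n + 1 ≤ (m + 1) ^ E) :
    Nat.log 2 (n + 1) ≤ E * (Nat.log 2 (m + 1) + 1) := by
  have h1 : m + 1 < 2 ^ (Nat.log 2 (m + 1) + 1) := Nat.lt_pow_succ_log_self (by norm_num) _
  have h2 : (m + 1) ^ E ≤ (2 ^ (Nat.log 2 (m + 1) + 1)) ^ E := Nat.pow_le_pow_left h1.le E
  rw [← pow_mul, mul_comm _ E] at h2
  have h3 := Nat.log_mono_right (b := 2) (h.trans h2)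
  rwa [Nat.log_pow (by norm_num)] at h3

theorem log_bounded {N M : ℕ} (h : M < N * Nat.log 2 (M + 1)) :
    Nat.log 2 (M + 1) ≤ 4 * N + 1 := by
  set l := Nat.log 2 (M + 1) with hl
  have h1 : 2 ^ l ≤ M + 1 := Nat.pow_log_le_self 2 (by omega)
  have h2 : l / 2 < 2 ^ (l / 2) := Nat.lt_two_pow_self
  have h3 : 2 ^ (l / 2) * 2 ^ (l / 2) ≤ 2 ^ l := by
    rw [← pow_add]
    exact Nat.pow_le_pow_right (by norm_num) (by omega)
  have h4 : (l / 2) * (l / 2) < 2 ^ (l / 2) * 2 ^ (l / 2) := Nat.mul_lt_mul'' h2 h2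
  have h5 : (l / 2) * (l / 2) < N * l := by omega
  have h6 : l ≤ 2 * (l / 2) + 1 := by omega
  by_contra hcon
  push Not at hcon
  have h7 : 2 * N + 1 ≤ l / 2 := by omega
  have h8 : N * l ≤ N * (2 * (l / 2) + 1) := Nat.mul_le_mul_left _ h6
  nlinarith

/-- Self-improvement without constructibility. -/
theorem high_step {r s : ℕ → ℕ} (hr : Slow O r) {E : ℕ} (hE : ∀ n, n + 1 ≤ (r n + 1) ^ E)
    {K : ℕ} (hK : ∀ n, s n ≤ n + K) (h : Enough O s)
    (h' : ∀ N : ℕ, Enough O fun n => n - N * Nat.log 2 (n + 1)) :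
    Enough O fun n => max (s (r n)) (s n - Nat.log 2 (n + 1)) := by
  classical
  intro L hL
  obtain ⟨c0, B, hB, f, hf0, hfB⟩ := h L hL
  have hf : ∀ n, (f n).length ≤ s n + c0 := hf0
  have hfB' : ∀ y, y ∉ L ↔ pair y (f y.length) ∈ B := fun y => by
    have := Set.ext_iff.1 hfB y
    simpa using this
  have hW := wrongLang_mem hr hL hB
  obtain ⟨c1, B1, hB1, f1, hf1', hfB1⟩ := h _ hW
  have hf1 : ∀ n, (f1 n).length ≤ s n + c1 := hf1'
  have hg1 : ∀ z, z ∉ WrongLang r L B ↔ pair z (f1 z.length) ∈ B1 := fun z => by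
    have := Set.ext_iff.1 hfB1 z
    simpa using this
  obtain ⟨c2, B2, hB2, f2, hf2', hfB2⟩ := h' (5 * E) _ hW
  have hf2 : ∀ n, (f2 n).length ≤ n - 5 * E * Nat.log 2 (n + 1) + c2 := hf2'
  have hg2 : ∀ z, z ∉ WrongLang r L B ↔ pair z (f2 z.length) ∈ B2 := fun z => by
    have := Set.ext_iff.1 hfB2 z
    simpa using this
  -- the numbers
  set K' := K + c0 + 9 with hK'
  obtain ⟨D, hD, hDC⟩ := join (O := O) (C₁ := fun x t => ∃ z : List Bool,
      z.length = r x.length ∧ Cert B B1 x z t) (C₂ := fun x w => ∃ μ t z : List Bool,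
      w = pair μ t ∧ val μ = z.length ∧ r x.length ≤ z.length ∧
        z.length ≤ 3 * x.length + K' ∧ Cert B B2 x z t)
    (nexp_c1 hr hB hB1) (nexp_c2 hr hB hB2 K')
  set M : ℕ → ℕ := fun n => 2 * (Nat.log 2 (n + 1) + 1) + ((f n).length + 1) + 2 with hM
  set F : ℕ → List Bool := fun n => if M n ≤ r n then false :: f1 (r n) else
    true :: pair (bits (Nat.log 2 (M n + 1) + 1) (M n)) (f2 (M n)) with hF
  have hlt : ∀ m : ℕ, m < 2 ^ (Nat.log 2 (m + 1) + 1) := fun m =>
    lt_trans (Nat.lt_succ_self m) (Nat.lt_pow_succ_log_self (by norm_num) _)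
  have hlogn : ∀ n : ℕ, Nat.log 2 (n + 1) ≤ n := fun n => by
    have : Nat.log 2 (n + 1) < n + 1 := Nat.log_lt_of_lt_pow (by omega) Nat.lt_two_pow_self
    omega
  have hMn : ∀ n, M n ≤ 3 * n + K' := fun n => by
    have h1 := hlogn n
    have h2 := hf n
    have h3 := hK n
    show 2 * (Nat.log 2 (n + 1) + 1) + ((f n).length + 1) + 2 ≤ _
    omega
  refine ⟨1 + c1 + (2 * K' + 10 + c0 + c2 + 5 * E + 2 * (4 * (5 * E) + 1)), D, hD, F,
    fun n => ?_, ?_⟩
  · -- the length of the advice
    show (F n).length ≤ max (s (r n)) (s n - Nat.log 2 (n + 1)) + _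
    by_cases hc : M n ≤ r n
    · have h1 := hf1 (r n)
      have h2 : s (r n) ≤ max (s (r n)) (s n - Nat.log 2 (n + 1)) := le_max_left _ _
      have h3 : (F n).length = (f1 (r n)).length + 1 := by
        rw [hF]
        simp only [if_pos hc, List.length_cons]
      rw [h3]
      omega
    · have h3 : (F n).length = 2 * (Nat.log 2 (M n + 1) + 1) + (f2 (M n)).length + 2 + 1 := by
        rw [hF]
        simp only [if_neg hc, List.length_cons, length_pair, length_bits]
      have h1 := hf2 (M n)
      have h2 : s n - Nat.log 2 (n + 1) ≤ max (s (r n)) (s n - Nat.log 2 (n + 1)) :=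
        le_max_right _ _
      have h4 : Nat.log 2 (n + 1) ≤ E * (Nat.log 2 (M n + 1) + 1) := by
        refine log_le_of_root ((hE n).trans (Nat.pow_le_pow_left ?_ E))
        omega
      have h5 : Nat.log 2 (M n + 1) ≤ Nat.log 2 (n + 1) + K' := by
        rw [← log_add_pow]
        refine Nat.log_mono_right ?_
        have h6 : K' + 1 ≤ 2 ^ K' := Nat.lt_two_pow_self
        have h7 := hMn n
        have h8 : (n + 1) * (K' + 1) ≤ (n + 1) * 2 ^ K' := Nat.mul_le_mul_left _ h6
        nlinarith
      have h6 : M n = 2 * (Nat.log 2 (n + 1) + 1) + ((f n).length + 1) + 2 := rfl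
      have h7 := hf n
      rw [h3]
      set l := Nat.log 2 (n + 1) with hl
      set k := Nat.log 2 (M n + 1) with hk
      rcases Nat.lt_or_ge (M n) (5 * E * k) with h8 | h8
      · have h9 := log_bounded h8
        rw [← hk] at h9
        omega
      · have h9 : 5 * E * k + 5 * E = 5 * (E * (k + 1)) := by ring
        omega
  · ext x
    show x ∉ L ↔ pair x (F x.length) ∈ D
    by_cases hc : M x.length ≤ r x.length
    · have h1 : F x.length = false :: f1 (r x.length) := by
        rw [hF]
        simp only [if_pos hc]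
      rw [h1, (hDC x _).1]
      constructor
      · intro hx
        have hlen : (pair (bits (Nat.log 2 (x.length + 1) + 1) x.length)
            (f x.length ++ true :: List.replicate (r x.length - M x.length) false)).length =
            r x.length := by
          have h2 : M x.length = 2 * (Nat.log 2 (x.length + 1) + 1) +
            ((f x.length).length + 1) + 2 := rfl
          rw [length_pair, length_bits, List.length_append, List.length_cons,
            List.length_replicate]
          omega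
        refine ⟨_, hlen, cert_complete (r := r) hfB' hx (val_bits (hlt _)) ?_⟩
        rw [hg1, hlen]
      · rintro ⟨z, h2, h3⟩
        refine cert_sound (r := r) ?_ h2.ge h3
        rw [hg1, h2]
    · have h1 : F x.length = true :: pair (bits (Nat.log 2 (M x.length + 1) + 1) (M x.length))
          (f2 (M x.length)) := by
        rw [hF]
        simp only [if_neg hc]
      rw [h1, (hDC x _).2]
      constructor
      · intro hx
        have hlen : (pair (bits (Nat.log 2 (x.length + 1) + 1) x.length)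
            (f x.length ++ true :: List.replicate 0 false)).length = M x.length := by
          have h2 : M x.length = 2 * (Nat.log 2 (x.length + 1) + 1) +
            ((f x.length).length + 1) + 2 := rfl
          rw [length_pair, length_bits, List.length_append, List.length_cons,
            List.length_replicate]
        refine ⟨_, _, _, rfl, ?_, ?_, ?_,
          cert_complete (r := r) hfB' hx (val_bits (hlt _)) (k := 0) ?_⟩
        · rw [hlen, val_bits (hlt _)]
        · rw [hlen]
          omega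
        · rw [hlen]
          exact hMn _
        · rw [hg2, hlen]
      · rintro ⟨μ, t, z, h2, h3, h4, -, h5⟩
        obtain ⟨rfl, rfl⟩ := pair_injective h2
        rw [val_bits (hlt _)] at h3
        refine cert_sound (r := r) ?_ h4 h5
        rw [hg2, ← h3]

end Pool.Agent.LibSpec4
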