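import Pool.Agent.LibSpec4.Spectrum
import Pool.Agent.LibSelfLaw.Step

/-!
The exact advice rates below `n ^ β`, `β < 1`: a nondecreasing function `s` is the exact number of
advice bits (up to an additive constant) for complementing nondeterministic exponential time
relative to some oracle if and only if `s(n) - s(n^(1/e))` does not tend to infinity for any `e`.
-/

namespace Pool.Agent.LibSpec4

open Function Filter Pool.Agent.LibNexp Pool.Agent.LibBHN Pool.Agent.LibSelfLaw

variable {O : List Bool → Bool}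

/-- `a(n) + O(1)` bits of advice suffice to complement the languages of the class. -/
def Enough (O : List Bool → Bool) (a : ℕ → ℕ) : Prop :=
  ∀ L ∈ NEXPLang O, ∃ c : ℕ, Lᶜ ∈ WithAdvice (NEXPLang O) {f | ∀ n, (f n).length ≤ a n + c}

/-- `s(n) + O(1)` bits suffice, and no function that is smaller by an unbounded amount does. -/
def Tight (O : List Bool → Bool) (s : ℕ → ℕ) : Prop :=
  Enough O s ∧ ∀ a : ℕ → ℕ, Tendsto (fun n => (s n : ℤ) - a n) atTop atTop → ¬ Enough O a

theorem tendsto_sub_iff {s a : ℕ → ℕ} : Tendsto (fun n => (s n : ℤ) - a n) atTop atTop ↔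
    ∀ c : ℕ, ∃ n₀, ∀ n, n₀ ≤ n → a n + c ≤ s n := by
  rw [tendsto_atTop]
  constructor
  · intro h c
    obtain ⟨n₀, hn⟩ := eventually_atTop.1 (h c)
    refine ⟨n₀, fun n hn' => ?_⟩
    have := hn n hn'
    omega
  · intro h b
    obtain ⟨n₀, hn⟩ := h b.toNat
    filter_upwards [eventually_ge_atTop n₀] with n hn'
    have h1 := hn n hn'
    have h2 : b ≤ b.toNat := Int.self_le_toNat b
    omega

theorem Enough.mono {a b : ℕ → ℕ} (h : Enough O a) (hab : ∀ n, a n ≤ b n) : Enough O b := by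
  intro L hL
  obtain ⟨c, B, hB, f, hf, hfB⟩ := h L hL
  exact ⟨c, B, hB, f, fun n => le_trans (hf n) (Nat.add_le_add_right (hab n) c), hfB⟩

theorem ne_sub {L : Lang} (h : L ∈ NELang O) : L ∈ NEXPLang O := by
  obtain ⟨c, hc⟩ := h
  show NEXP O _
  rw [nexp_iff]
  exact ⟨_, EP.pow2 (((PolyB.const c).mul PolyB.id).add (PolyB.const c)), hc⟩

/-! ### Roots -/

theorem le_rt {e n r : ℕ} (he : 1 ≤ e) (h : r ^ e ≤ n) : r ≤ rt e n := by
  refine Nat.le_findGreatest ?_ h
  exact le_trans (Nat.le_self_pow (by omega) r) h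

theorem le_rt_iff {e n r : ℕ} (he : 1 ≤ e) : r ≤ rt e n ↔ r ^ e ≤ n :=
  ⟨fun h => le_trans (Nat.pow_le_pow_left h e) (rt_pow_le he n), le_rt he⟩

theorem rt_lt_iff {e n r : ℕ} (he : 1 ≤ e) : rt e n < r ↔ n < r ^ e := by
  rw [← not_le, le_rt_iff he, not_le]

theorem rt_mono {e : ℕ} (he : 1 ≤ e) : Monotone (rt e) := fun a _ hab =>
  le_rt he (le_trans (rt_pow_le he a) hab)

/-- The integer part of `n ^ (p / q)`. -/
def frac (p q n : ℕ) : ℕ := rt q (n ^ p)

theorem frac_mono {p q : ℕ} (hq : 1 ≤ q) : Monotone (frac p q) := fun _ _ hab =>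
  rt_mono hq (Nat.pow_le_pow_left hab p)

theorem frac_lip {p q : ℕ} (hp : 1 ≤ p) (hpq : p ≤ q) (n : ℕ) :
    frac p q (n + 1) ≤ frac p q n + 1 := by
  have hq : 1 ≤ q := le_trans hp hpq
  by_contra hcon
  push Not at hcon
  set m := frac p q n + 1 with hm
  have h1 : n ^ p < m ^ q := (rt_lt_iff hq).1 (by show frac p q n < m; omega)
  have h2 : (m + 1) ^ q ≤ (n + 1) ^ p := (le_rt_iff hq).1 (by show m + 1 ≤ frac p q (n + 1); omega)
  rcases Nat.lt_or_ge n m with h3 | h3
  · have h4 : (n + 1) ^ p < (m + 1) ^ p := Nat.pow_lt_pow_left (by omega) (by omega)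
    have h5 : (m + 1) ^ p ≤ (m + 1) ^ q := Nat.pow_le_pow_right (by omega) hpq
    omega
  · have h4 : ((n + 1) * m) ^ p ≤ ((m + 1) * n) ^ p := Nat.pow_le_pow_left (by nlinarith) p
    have h5 : m ^ (q - p) ≤ (m + 1) ^ (q - p) := Nat.pow_le_pow_left (by omega) _
    have h6 : ((n + 1) * m) ^ p * m ^ (q - p) ≤ ((m + 1) * n) ^ p * (m + 1) ^ (q - p) :=
      Nat.mul_le_mul h4 h5
    have h7 : ((n + 1) * m) ^ p * m ^ (q - p) = (n + 1) ^ p * m ^ q := by
      rw [mul_pow, mul_assoc, ← pow_add]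
      congr 2
      omega
    have h8 : ((m + 1) * n) ^ p * (m + 1) ^ (q - p) = (m + 1) ^ q * n ^ p := by
      rw [mul_pow, mul_right_comm, ← pow_add]
      congr 2
      omega
    rw [h7, h8] at h6
    have h9 : (m + 1) ^ q * n ^ p ≤ (n + 1) ^ p * n ^ p := Nat.mul_le_mul_right _ h2
    have h10 : (n + 1) ^ p * n ^ p < (n + 1) ^ p * m ^ q :=
      Nat.mul_lt_mul_of_pos_left h1 (by positivity)
    omega

theorem frac_poly {p q : ℕ} (hp : 1 ≤ p) (hq : 1 ≤ q) (n : ℕ) : n ≤ (frac p q n + 1) ^ q := by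
  have h1 : n ^ p < (frac p q n + 1) ^ q := (rt_lt_iff hq).1 (Nat.lt_succ_self _)
  exact le_trans (Nat.le_self_pow (by omega) n) h1.le

theorem graph_frac {p q : ℕ} (hq : 1 ≤ q) : GraphIn O (frac p q) := by
  -- variables x, y, u (= x ^ p), v (= y ^ q), w (= y + 1), z (= w ^ q), t (= u + 1)
  have h1 : NEXP O fun e : Fin 7 → List Bool =>
      (e 2).length = (e 0).length ^ p ∧ ((e 3).length = (e 1).length ^ q ∧
      ((e 4).length = 1 * (e 1).length + 1 ∧ ((e 5).length = (e 4).length ^ q ∧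
      ((e 6).length = 1 * (e 2).length + 1 ∧
      ((e 3).length ≤ (e 2).length ∧ (e 6).length ≤ (e 5).length))))) := by
    refine (((nexp_pow (O := O) p).reindex ![0, 2]).congr fun e => ?_).and
      ((((nexp_pow (O := O) q).reindex ![1, 3]).congr fun e => ?_).and
      ((nexp_lin 1 1 1 4).and
      ((((nexp_pow (O := O) q).reindex ![4, 5]).congr fun e => ?_).and
      ((nexp_lin 1 1 2 6).and ((nexp_lenLe 3 2).and (nexp_lenLe 6 5))))))
    · simp
    · simp
    · simp
  have h2 := NEXP.exists h1 (g := fun n => n + 1) (PolyB.id.add (PolyB.const 1)) (by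
    rintro e z ⟨-, -, -, -, h, -⟩
    have a2 : app e z 2 = e 2 := rfl
    have a6 : app e z 6 = z := rfl
    rw [a2, a6] at h
    have := len_le_size e 2
    omega)
  have h3 := NEXP.exists h2 (g := fun n => n ^ q) (PolyB.id.pow q) (by
    rintro e z ⟨t, -, -, -, h, -⟩
    have a4 : app (app e z) t 4 = e 4 := rfl
    have a5 : app (app e z) t 5 = z := rfl
    rw [a4, a5] at h
    rw [h]
    exact Nat.pow_le_pow_left (len_le_size e 4) q)
  have h4 := NEXP.exists h3 (g := fun n => n + 1) (PolyB.id.add (PolyB.const 1)) (by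
    rintro e z ⟨z', t, -, -, h, -⟩
    have a1 : app (app (app e z) z') t 1 = e 1 := rfl
    have a4 : app (app (app e z) z') t 4 = z := rfl
    rw [a1, a4] at h
    have := len_le_size e 1
    omega)
  have h5 := NEXP.exists h4 (g := fun n => n ^ q) (PolyB.id.pow q) (by
    rintro e z ⟨w, z', t, -, h, -⟩
    have a1 : app (app (app (app e z) w) z') t 1 = e 1 := rfl
    have a3 : app (app (app (app e z) w) z') t 3 = z := rfl
    rw [a1, a3] at h
    rw [h]
    exact Nat.pow_le_pow_left (len_le_size e 1) q)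
  have h6 := NEXP.exists h5 (g := fun n => n ^ p) (PolyB.id.pow p) (by
    rintro e z ⟨v, w, z', t, h, -⟩
    have a0 : app (app (app (app (app e z) v) w) z') t 0 = e 0 := rfl
    have a2 : app (app (app (app (app e z) v) w) z') t 2 = z := rfl
    rw [a0, a2] at h
    rw [h]
    exact Nat.pow_le_pow_left (len_le_size e 0) p)
  refine h6.congr fun e => ?_
  constructor
  · rintro ⟨u, v, w, z, t, h7, h8, h9, h10, h11, h12, h13⟩
    have a0 : app (app (app (app (app e u) v) w) z) t 0 = e 0 := rfl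
    have a1 : app (app (app (app (app e u) v) w) z) t 1 = e 1 := rfl
    have a2 : app (app (app (app (app e u) v) w) z) t 2 = u := rfl
    have a3 : app (app (app (app (app e u) v) w) z) t 3 = v := rfl
    have a4 : app (app (app (app (app e u) v) w) z) t 4 = w := rfl
    have a5 : app (app (app (app (app e u) v) w) z) t 5 = z := rfl
    have a6 : app (app (app (app (app e u) v) w) z) t 6 = t := rfl
    rw [a0, a2] at h7
    rw [a1, a3] at h8
    rw [a1, a4] at h9
    rw [a4, a5] at h10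
    rw [a2, a6] at h11
    rw [a2, a3] at h12
    rw [a5, a6] at h13
    refine le_antisymm ((le_rt_iff hq).2 (by rw [← h8, ← h7]; exact h12)) ?_
    have h14 : frac p q (e 0).length < (e 1).length + 1 := (rt_lt_iff hq).2 (by
      rw [← h7]
      have h15 : w.length = (e 1).length + 1 := by omega
      rw [h15] at h10
      rw [← h10]
      omega)
    omega
  · intro h
    have h' : (e 1).length = frac p q (e 0).length := h
    have h7 : (e 1).length ^ q ≤ (e 0).length ^ p := (le_rt_iff hq).1 h'.le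
    have h8 : (e 0).length ^ p < ((e 1).length + 1) ^ q := (rt_lt_iff hq).1 (by
      show frac p q (e 0).length < _
      omega)
    refine ⟨List.replicate ((e 0).length ^ p) true, List.replicate ((e 1).length ^ q) true,
      List.replicate ((e 1).length + 1) true, List.replicate (((e 1).length + 1) ^ q) true,
      List.replicate ((e 0).length ^ p + 1) true, ?_, ?_, ?_, ?_, ?_, ?_, ?_⟩
    · show (List.replicate _ true).length = (e 0).length ^ p
      simp
    · show (List.replicate _ true).length = (e 1).length ^ q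
      simp
    · show (List.replicate _ true).length = 1 * (e 1).length + 1
      simp
    · show (List.replicate _ true).length = (List.replicate ((e 1).length + 1) true).length ^ q
      simp
    · show (List.replicate _ true).length = 1 * (List.replicate ((e 0).length ^ p) true).length + 1
      simp
    · show (List.replicate _ true).length ≤ (List.replicate ((e 0).length ^ p) true).length
      simpa using h7
    · show (List.replicate ((e 0).length ^ p + 1) true).length ≤
        (List.replicate (((e 1).length + 1) ^ q) true).length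
      simpa using h8

theorem slow_frac {p q : ℕ} (hp : 1 ≤ p) (hpq : p ≤ q) : Slow O (frac p q) where
  mono := frac_mono (le_trans hp hpq)
  lip := frac_lip hp hpq
  poly := ⟨fun m => (m + 1) ^ q, (PolyB.id.add (PolyB.const 1)).pow q,
    fun a b hab => Nat.pow_le_pow_left (by omega) q, frac_poly hp (le_trans hp hpq)⟩
  graph := graph_frac (le_trans hp hpq)

theorem frac_iter {p q : ℕ} (hq : 1 ≤ q) (j n : ℕ) : (frac p q)^[j] n ^ (q ^ j) ≤ n ^ (p ^ j) := by
  induction j with
  | zero => simp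
  | succ j ih =>
    rw [iterate_succ_apply', pow_succ q j, mul_comm (q ^ j) q, pow_mul]
    have h1 : frac p q ((frac p q)^[j] n) ^ q ≤ ((frac p q)^[j] n) ^ p := rt_pow_le hq _
    calc (frac p q ((frac p q)^[j] n) ^ q) ^ q ^ j ≤ (((frac p q)^[j] n) ^ p) ^ q ^ j :=
          Nat.pow_le_pow_left h1 _
      _ = (((frac p q)^[j] n) ^ q ^ j) ^ p := by rw [← pow_mul, ← pow_mul, mul_comm]
      _ ≤ (n ^ p ^ j) ^ p := Nat.pow_le_pow_left ih p
      _ = n ^ (p ^ (j + 1)) := by rw [← pow_mul, pow_succ]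

theorem exists_iter {p q : ℕ} (hp : 1 ≤ p) (hpq : p < q) {e : ℕ} (he : 1 ≤ e) :
    ∃ j, ∀ n, (frac p q)^[j] n ≤ rt e n := by
  obtain ⟨j, hj⟩ : ∃ j, e * p ^ j ≤ q ^ j := by
    have h1 : (1 : ℝ) < q / p := by
      rw [one_lt_div (by exact_mod_cast hp)]
      exact_mod_cast hpq
    obtain ⟨j, hj⟩ := pow_unbounded_of_one_lt (e : ℝ) h1
    refine ⟨j, ?_⟩
    rw [div_pow, lt_div_iff₀ (by positivity)] at hj
    exact_mod_cast hj.le
  refine ⟨j, fun n => le_rt he ?_⟩
  rcases Nat.eq_zero_or_pos ((frac p q)^[j] n) with h0 | h0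
  · rw [h0, Nat.zero_pow (by omega)]
    exact Nat.zero_le _
  · have h1 : ((frac p q)^[j] n ^ e) ^ (p ^ j) ≤ n ^ (p ^ j) := by
      rw [← pow_mul]
      exact le_trans (Nat.pow_le_pow_right h0 hj) (frac_iter (by omega) j n)
    exact (Nat.pow_le_pow_iff_left (by positivity)).1 h1

/-- The self-improvement law below a power `n ^ (p / q)` with `p < q`. -/
theorem enough_rt {s : ℕ → ℕ} (hm : Monotone s) {p q : ℕ} (hp : 1 ≤ p) (hpq : p < q)
    (hs : ∀ c : ℕ, ∃ n₀, ∀ n, n₀ ≤ n → s n + c ≤ frac p q n) (h : Enough O s) {e : ℕ}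
    (he : 1 ≤ e) : Enough O fun n => s (rt e n) := by
  obtain ⟨j, hj⟩ := exists_iter hp hpq he
  have h1 : Enough O fun n => s ((frac p q)^[j] n) :=
    fun L hL => self_law (slow_frac hp hpq.le) hs h j L hL
  exact h1.mono fun n => hm (hj n)

/-- A real exponent below one leaves room for a rational one. -/
theorem exists_frac {s : ℕ → ℕ} {β : ℝ} (hβ : β < 1)
    (hs : ∀ᶠ n : ℕ in atTop, (s n : ℝ) ≤ (n : ℝ) ^ β) :
    ∃ p q : ℕ, 1 ≤ p ∧ p < q ∧ ∀ c : ℕ, ∃ n₀, ∀ n, n₀ ≤ n → s n + c ≤ frac p q n := by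
  obtain ⟨r, hr1, hr2⟩ := exists_rat_btwn (show max β 0 < 1 from max_lt hβ one_pos)
  have hr0 : (0 : ℝ) < r := lt_of_le_of_lt (le_max_right _ _) hr1
  have hrβ : β < r := lt_of_le_of_lt (le_max_left _ _) hr1
  have hr0' : 0 < r := by exact_mod_cast hr0
  have hr1' : r < 1 := by exact_mod_cast hr2
  have hnum : 0 < r.num := Rat.num_pos.2 hr0'
  have hrq : (r : ℝ) = (r.num.toNat : ℝ) / (r.den : ℝ) := by
    have h1 : (r : ℝ) = (r.num : ℝ) / (r.den : ℝ) := by exact_mod_cast (Rat.num_div_den r).symm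
    rw [h1]
    congr 1
    have : (r.num.toNat : ℤ) = r.num := Int.toNat_of_nonneg hnum.le
    exact_mod_cast this.symm
  have hden : (0 : ℝ) < r.den := by exact_mod_cast r.den_pos
  refine ⟨r.num.toNat, r.den, by omega, ?_, fun c => ?_⟩
  · rw [hrq, div_lt_one hden] at hr2
    exact_mod_cast hr2
  · have h1 : Tendsto (fun n : ℕ => (n : ℝ) ^ (r : ℝ) - (n : ℝ) ^ β) atTop atTop := by
      have h2 : Tendsto (fun n : ℕ => (n : ℝ) ^ (r : ℝ) * (1 - (n : ℝ) ^ (-((r : ℝ) - β))))
          atTop atTop := by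
        have h3 : Tendsto (fun n : ℕ => (1 : ℝ) - (n : ℝ) ^ (-((r : ℝ) - β))) atTop
            (nhds (1 - 0)) :=
          tendsto_const_nhds.sub
            ((tendsto_rpow_neg_atTop (by linarith)).comp tendsto_natCast_atTop_atTop)
        exact Tendsto.atTop_mul_pos (C := 1 - 0) (by norm_num)
          ((tendsto_rpow_atTop hr0).comp tendsto_natCast_atTop_atTop) h3
      refine h2.congr' ?_
      filter_upwards [eventually_gt_atTop 0] with n hn
      have hn' : (0 : ℝ) < n := by exact_mod_cast hn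
      rw [mul_sub, mul_one, ← Real.rpow_add hn']
      congr 2
      ring
    obtain ⟨n₀, hn₀⟩ := eventually_atTop.1 ((h1.eventually_ge_atTop (c : ℝ)).and hs)
    refine ⟨n₀, fun n hn => ?_⟩
    obtain ⟨h4, h5⟩ := hn₀ n hn
    refine le_rt r.den_pos ?_
    have h6 : ((s n + c : ℕ) : ℝ) ≤ (n : ℝ) ^ (r : ℝ) := by
      push_cast
      linarith
    have h7 : ((s n + c : ℕ) : ℝ) ^ r.den ≤ ((n : ℝ) ^ (r : ℝ)) ^ r.den :=
      pow_le_pow_left₀ (by positivity) h6 _
    have h8 : ((n : ℝ) ^ (r : ℝ)) ^ r.den = (n : ℝ) ^ r.num.toNat := by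
      rw [← Real.rpow_natCast, ← Real.rpow_mul (by positivity), hrq,
        div_mul_cancel₀ _ hden.ne', Real.rpow_natCast]
    rw [h8] at h7
    exact_mod_cast h7

/-- The exact rates below `n ^ β`. -/
theorem spectrum_iff {s : ℕ → ℕ} (hm : Monotone s) {β : ℝ} (hβ : β < 1)
    (hs : ∀ᶠ n : ℕ in atTop, (s n : ℝ) ≤ (n : ℝ) ^ β) :
    (∃ O : List Bool → Bool, Tight O s) ↔
      ∀ e : ℕ, 2 ≤ e → ¬ Tendsto (fun n => (s n : ℤ) - s (rt e n)) atTop atTop := by
  obtain ⟨p, q, hp, hpq, hf⟩ := exists_frac hβ hs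
  constructor
  · rintro ⟨O, h1, h2⟩ e he h3
    exact h2 _ h3 (enough_rt hm hp hpq hf h1 (by omega))
  · intro h
    have h1 : ∀ᶠ n in atTop, s n + 1 ≤ n := by
      obtain ⟨n₀, hn₀⟩ := hf 1
      filter_upwards [eventually_ge_atTop n₀, eventually_ge_atTop 1] with n h2 h3
      refine le_trans (hn₀ n h2) ?_
      have h4 : frac p q n ^ q ≤ n ^ q :=
        le_trans (rt_pow_le (by omega) _) (Nat.pow_le_pow_right h3 hpq.le)
      exact (Nat.pow_le_pow_iff_left (by omega)).1 h4
    obtain ⟨O, h2, h3⟩ := tight_exists hm h1 (fun e he => by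
      have h4 := h e he
      rw [tendsto_sub_iff] at h4
      push Not at h4
      obtain ⟨c, hc⟩ := h4
      refine ⟨c, ?_⟩
      rw [frequently_atTop]
      intro n₀
      obtain ⟨n, hn, hn'⟩ := hc n₀
      exact ⟨n, hn, by omega⟩)
    refine ⟨O, h2, fun a ha h4 => ?_⟩
    have hW : WitLang O ∈ NEXPLang O := ne_sub witLang_mem
    obtain ⟨c, hc⟩ := h4 _ hW
    exact h3 a (fun c => by
      obtain ⟨n₀, hn⟩ := tendsto_sub_iff.1 ha c
      filter_upwards [eventually_ge_atTop n₀] with n hn' using hn n hn') c hc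

end Pool.Agent.LibSpec4
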