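import Pool.Agent.LibSpec4.Gap

/-!
The exact advice rates close to the census bound `n`.
-/

namespace Pool.Agent.LibSpec4

open Function Filter Pool.Agent.LibNexp Pool.Agent.LibBHN Pool.Agent.LibSelfLaw
  Pool.Agent.LibDual85

variable {O : List Bool → Bool}

/-- Halfway between `s (n)` and `s (n) + (s (n) - s (s (n)))`. -/
def half (s : ℕ → ℕ) (n : ℕ) : ℕ := s n + (s n - s (s n)) / 2

theorem graph_half {s : ℕ → ℕ} (hn : ∀ n, s n ≤ n) (hG : GraphIn O s) : GraphIn O (half s) := by
  -- variables x, y, a (= s x), b (= s a), w1 (= 2 y), w2 (= w1 ++ b), w3 (= 3 a)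
  have h1 : NEXP O fun e : Fin 7 → List Bool => (e 2).length = s (e 0).length ∧
      ((e 3).length = s (e 2).length ∧ ((e 4).length = 2 * (e 1).length + 0 ∧
      (e 5 = e 4 ++ e 3 ∧ ((e 6).length = 3 * (e 2).length + 0 ∧
      ((e 6).length = 1 * (e 5).length + 0 ∨ (e 6).length = 1 * (e 5).length + 1))))) :=
    (hG.rel 0 2).and ((hG.rel 2 3).and ((nexp_lin 2 0 1 4).and ((nexp_append 4 3 5).and
      ((nexp_lin 3 0 2 6).and ((nexp_lin 1 0 5 6).or (nexp_lin 1 1 5 6))))))
  have h2 := NEXP.exists h1 (g := fun n => 3 * n) ((PolyB.const 3).mul PolyB.id) (by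
    rintro e z ⟨-, -, -, -, h, -⟩
    have a2 : app e z 2 = e 2 := rfl
    have a6 : app e z 6 = z := rfl
    rw [a2, a6] at h
    have := len_le_size e 2
    show _ ≤ 3 * size e
    omega)
  have h3 := NEXP.exists h2 (g := fun n => 2 * n) ((PolyB.const 2).mul PolyB.id) (by
    rintro e z ⟨w, -, -, -, h, -⟩
    have a3 : app (app e z) w 3 = e 3 := rfl
    have a4 : app (app e z) w 4 = e 4 := rfl
    have a5 : app (app e z) w 5 = z := rfl
    rw [a3, a4, a5] at h
    have e3 := len_le_size e 3
    have e4 := len_le_size e 4
    rw [h, List.length_append]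
    show _ ≤ 2 * size e
    omega)
  have h4 := NEXP.exists h3 (g := fun n => 2 * n) ((PolyB.const 2).mul PolyB.id) (by
    rintro e z ⟨w, w', -, -, h, -⟩
    have a1 : app (app (app e z) w) w' 1 = e 1 := rfl
    have a4 : app (app (app e z) w) w' 4 = z := rfl
    rw [a1, a4] at h
    have := len_le_size e 1
    show _ ≤ 2 * size e
    omega)
  have h5 := NEXP.exists h4 (g := fun n => n) PolyB.id (by
    rintro e z ⟨w, w', w'', -, h, -⟩
    have a2 : app (app (app (app e z) w) w') w'' 2 = e 2 := rfl
    have a3 : app (app (app (app e z) w) w') w'' 3 = z := rfl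
    rw [a2, a3] at h
    rw [h]
    exact (hn _).trans (len_le_size e 2))
  have h6 := NEXP.exists h5 (g := fun n => n) PolyB.id (by
    rintro e z ⟨w, w', w'', w''', h, -⟩
    have a0 : app (app (app (app (app e z) w) w') w'') w''' 0 = e 0 := rfl
    have a2 : app (app (app (app (app e z) w) w') w'') w''' 2 = z := rfl
    rw [a0, a2] at h
    rw [h]
    exact (hn _).trans (len_le_size e 0))
  refine h6.congr fun e => ?_
  constructor
  · rintro ⟨a, b, w1, w2, w3, h7, h8, h9, h10, h11, h12⟩
    have a0 : app (app (app (app (app e a) b) w1) w2) w3 0 = e 0 := rfl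
    have a1 : app (app (app (app (app e a) b) w1) w2) w3 1 = e 1 := rfl
    have a2 : app (app (app (app (app e a) b) w1) w2) w3 2 = a := rfl
    have a3 : app (app (app (app (app e a) b) w1) w2) w3 3 = b := rfl
    have a4 : app (app (app (app (app e a) b) w1) w2) w3 4 = w1 := rfl
    have a5 : app (app (app (app (app e a) b) w1) w2) w3 5 = w2 := rfl
    have a6 : app (app (app (app (app e a) b) w1) w2) w3 6 = w3 := rfl
    rw [a0, a2] at h7
    rw [a2, a3] at h8
    rw [a1, a4] at h9
    rw [a3, a4, a5] at h10
    rw [a2, a6] at h11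
    rw [a5, a6] at h12
    have h13 := hn a.length
    rw [h10, List.length_append, h8] at h12
    show (e 1).length = s (e 0).length + (s (e 0).length - s (s (e 0).length)) / 2
    rw [← h7]
    omega
  · intro h
    have h' : (e 1).length = s (e 0).length + (s (e 0).length - s (s (e 0).length)) / 2 := h
    have h13 := hn (s (e 0).length)
    refine ⟨List.replicate (s (e 0).length) true, List.replicate (s (s (e 0).length)) true,
      List.replicate (2 * (e 1).length) true, List.replicate (2 * (e 1).length) true ++
        List.replicate (s (s (e 0).length)) true, List.replicate (3 * s (e 0).length) true,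
      ?_, ?_, ?_, ?_, ?_, ?_⟩
    · show (List.replicate _ true).length = s (e 0).length
      simp
    · show (List.replicate _ true).length = s (List.replicate _ true).length
      simp
    · show (List.replicate _ true).length = 2 * (e 1).length + 0
      simp
    · rfl
    · show (List.replicate _ true).length = 3 * (List.replicate _ true).length + 0
      simp
    · show (List.replicate _ true).length = 1 * (List.replicate (2 * (e 1).length) true ++
          List.replicate (s (s (e 0).length)) true).length + 0 ∨
        (List.replicate _ true).length = 1 * (List.replicate (2 * (e 1).length) true ++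
          List.replicate (s (s (e 0).length)) true).length + 1
      rw [List.length_append, List.length_replicate, List.length_replicate,
        List.length_replicate]
      omega

theorem graph_max {g h : ℕ → ℕ} (hg : GraphIn O g) (hh : GraphIn O h) (hg' : ∀ n, g n ≤ 2 * n)
    (hh' : ∀ n, h n ≤ 2 * n) : GraphIn O fun n => max (g n) (h n) := by
  have h1 : NEXP O fun e : Fin 4 → List Bool => (e 2).length = g (e 0).length ∧
      ((e 3).length = h (e 0).length ∧
      (((e 2).length ≤ (e 3).length ∧ (e 1).length = 1 * (e 3).length + 0) ∨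
        ((e 3).length ≤ (e 2).length ∧ (e 1).length = 1 * (e 2).length + 0))) :=
    (hg.rel 0 2).and ((hh.rel 0 3).and (((nexp_lenLe 2 3).and (nexp_lin 1 0 3 1)).or
      ((nexp_lenLe 3 2).and (nexp_lin 1 0 2 1))))
  have h2 := NEXP.exists h1 (g := fun n => 2 * n) ((PolyB.const 2).mul PolyB.id) (by
    rintro e z ⟨-, h, -⟩
    have a0 : app e z 0 = e 0 := rfl
    have a3 : app e z 3 = z := rfl
    rw [a0, a3] at h
    have h3 := hh' (e 0).length
    have h4 := len_le_size e 0
    show _ ≤ 2 * size e
    omega)
  have h3 := NEXP.exists h2 (g := fun n => 2 * n) ((PolyB.const 2).mul PolyB.id) (by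
    rintro e z ⟨w, h, -⟩
    have a0 : app (app e z) w 0 = e 0 := rfl
    have a2 : app (app e z) w 2 = z := rfl
    rw [a0, a2] at h
    have h3 := hg' (e 0).length
    have h4 := len_le_size e 0
    show _ ≤ 2 * size e
    omega)
  refine h3.congr fun e => ?_
  constructor
  · rintro ⟨a, b, h4, h5, h6⟩
    have a0 : app (app e a) b 0 = e 0 := rfl
    have a1 : app (app e a) b 1 = e 1 := rfl
    have a2 : app (app e a) b 2 = a := rfl
    have a3 : app (app e a) b 3 = b := rfl
    rw [a0, a2] at h4
    rw [a0, a3] at h5
    rw [a1, a2, a3] at h6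
    show (e 1).length = max (g (e 0).length) (h (e 0).length)
    rcases h6 with ⟨h7, h8⟩ | ⟨h7, h8⟩
    · rw [max_eq_right (by omega)]
      omega
    · rw [max_eq_left (by omega)]
      omega
  · intro h4
    have h4' : (e 1).length = max (g (e 0).length) (h (e 0).length) := h4
    refine ⟨List.replicate (g (e 0).length) true, List.replicate (h (e 0).length) true, ?_, ?_, ?_⟩
    · show (List.replicate _ true).length = g (e 0).length
      simp
    · show (List.replicate _ true).length = h (e 0).length
      simp
    · show ((List.replicate (g (e 0).length) true).length ≤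
          (List.replicate (h (e 0).length) true).length ∧
          (e 1).length = 1 * (List.replicate (h (e 0).length) true).length + 0) ∨
        ((List.replicate (h (e 0).length) true).length ≤
          (List.replicate (g (e 0).length) true).length ∧
          (e 1).length = 1 * (List.replicate (g (e 0).length) true).length + 0)
      rw [List.length_replicate, List.length_replicate]
      rcases le_total (g (e 0).length) (h (e 0).length) with h5 | h5
      · left
        rw [max_eq_right h5] at h4'
        omega
      · right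
        rw [max_eq_left h5] at h4'
        omega

/-- Constructible functions of slope at most one. -/
theorem not_tight_nice {s : ℕ → ℕ} (hm : Monotone s) (hl : ∀ n, s (n + 1) ≤ s n + 1)
    (hn : ∀ n, s n ≤ n) (hG : GraphIn O s) (hub : ∀ C, ∃ n, s n + C < n) {e : ℕ} (he : 1 ≤ e)
    (ht : Tendsto (fun n => (s n : ℤ) - s (rt e n)) atTop atTop) : ¬ Tight O s := by
  rintro ⟨h1, h2⟩
  rw [tendsto_sub_iff] at ht
  -- the gap is nondecreasing and unbounded
  have hgap : Monotone fun n => n - s n := by
    refine monotone_nat_of_le_succ fun n => ?_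
    have := hl n
    omega
  have hgap' : ∀ C, ∃ n₀, ∀ n, n₀ ≤ n → C ≤ n - s n := by
    intro C
    obtain ⟨n₀, hn₀⟩ := hub C
    refine ⟨n₀, fun n h => ?_⟩
    have h3 : n₀ - s n₀ ≤ n - s n := hgap h
    omega
  have hgs : ∀ C, ∃ n₀, ∀ n, n₀ ≤ n → C ≤ s n - s (s n) := by
    intro C
    obtain ⟨m₀, hm₀⟩ := hgap' C
    obtain ⟨n₀, hn₀⟩ := ht m₀
    exact ⟨n₀, fun n h => hm₀ _ (by have := hn₀ n h; omega)⟩
  have hmono : Monotone (half s) := by
    intro a b hab
    have h3 : s a ≤ s b := hm hab
    have h4 : s a - s (s a) ≤ s b - s (s b) := hgap h3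
    show s a + (s a - s (s a)) / 2 ≤ s b + (s b - s (s b)) / 2
    omega
  have hle : ∀ n, half s n ≤ 2 * n := fun n => by
    have := hn n
    show s n + (s n - s (s n)) / 2 ≤ 2 * n
    omega
  have h3 : Enough O fun n => s (max (rt e n) (half s n)) := by
    intro L hL
    refine gen_step hL (g := fun n => max (rt e n) (half s n)) (s1 := s) (s := s)
      ((rt_mono he).max hmono)
      (graph_max (slow_rt he).graph (graph_half hn hG) (fun n => by
        have := rt_le e n
        omega) hle)
      (P := fun m => (m + 1) ^ e) ((PolyB.id.add (PolyB.const 1)).pow e) (fun a b hab =>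
        Nat.pow_le_pow_left (by omega) e) (fun n => ?_) (Q := fun n => 2 * n)
      ((PolyB.const 2).mul PolyB.id) (fun a b hab => by show 2 * a ≤ 2 * b; omega)
      (fun n => max_le (by have := rt_le e n; omega) (hle n)) h1 (fun c => ?_) h1
    · have h4 : n < (rt e n + 1) ^ e := (rt_lt_iff he).1 (Nat.lt_succ_self _)
      have h5 : (rt e n + 1) ^ e ≤ (max (rt e n) (half s n) + 1) ^ e :=
        Nat.pow_le_pow_left (Nat.add_le_add_right (le_max_left _ _) 1) e
      exact h4.le.trans h5
    · obtain ⟨n₀, hn₀⟩ := hgs (2 * (c + 1))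
      refine ⟨n₀, fun n h => le_trans ?_ (le_max_right _ _)⟩
      have h4 := hn₀ n h
      have h5 := hl n
      show s (n + 1) + c ≤ s n + (s n - s (s n)) / 2
      omega
  refine h2 _ ?_ h3
  rw [tendsto_sub_iff]
  intro c
  obtain ⟨n₀, hn₀⟩ := hgs (2 * c + 2)
  obtain ⟨n₁, hn₁⟩ := ht c
  refine ⟨max n₀ n₁, fun n h => ?_⟩
  have h4 := hn₀ n (le_trans (le_max_left _ _) h)
  have h5 := hn₁ n (le_trans (le_max_right _ _) h)
  have h6 : s n - s (s n) ≤ half s n - s (half s n) := hgap (Nat.le_add_right _ _)
  have h7 : half s n = s n + (s n - s (s n)) / 2 := rfl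
  have h8 := hn (half s n)
  rw [hm.map_max]
  rcases le_total (s (rt e n)) (s (half s n)) with h9 | h9
  · rw [max_eq_right h9]
    omega
  · rw [max_eq_left h9]
    exact h5

end Pool.Agent.LibSpec4
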